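import Mathlib

/-!
# MP_0e9457_al: the full group of the Morse subshift has a subgroup of intermediate growth
-/

namespace H260R4

open Filter Topology

/-! ### Part 1: the statement -/

/-- The Thue-Morse substitution `0 ↦ 01`, `1 ↦ 10` on letters. -/
def mu : Bool → List Bool
  | false => [false, true]
  | true => [true, false]

/-- The Thue-Morse substitution on words. -/
def muW (w : List Bool) : List Bool := w.flatMap mu

/-- The Morse subshift: the bi-infinite sequences all of whose finite subwords occur in some
`σ^n(a)`, `n ≥ 1`. -/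
def morseShift : Set (ℤ → Bool) :=
  {x | ∀ (i : ℤ) (k : ℕ), ∃ n ≥ 1, ∃ a : Bool,
    (List.ofFn fun j : Fin k => x (i + (j : ℕ))) <:+: (muW^[n] [a])}

theorem shift_mem {x : ℤ → Bool} (hx : x ∈ morseShift) (m : ℤ) :
    (fun n => x (n + m)) ∈ morseShift := by
  intro i k
  obtain ⟨n, hn, a, h⟩ := hx (i + m) k
  refine ⟨n, hn, a, ?_⟩
  have : (fun j : Fin k => x (i + (j : ℕ) + m)) = fun j : Fin k => x (i + m + (j : ℕ)) := by
    funext j; congr 1; ring
  show (List.ofFn fun j : Fin k => x (i + (j : ℕ) + m)) <:+: _
  rw [this]; exact h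

/-- The left shift of the Morse subshift. -/
def morseT : morseShift ≃ₜ morseShift where
  toFun x := ⟨fun n => x.1 (n + 1), shift_mem x.2 1⟩
  invFun x := ⟨fun n => x.1 (n + (-1)), shift_mem x.2 (-1)⟩
  left_inv x := by apply Subtype.ext; funext n; simp
  right_inv x := by apply Subtype.ext; funext n; simp
  continuous_toFun := by
    refine Continuous.subtype_mk (continuous_pi fun n => ?_) _
    exact (continuous_apply (n + 1)).comp continuous_subtype_val
  continuous_invFun := by
    refine Continuous.subtype_mk (continuous_pi fun n => ?_) _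
    exact (continuous_apply (n + (-1))).comp continuous_subtype_val

/-- The topological full group `[[T]]`. -/
def fullGroup {X : Type*} [TopologicalSpace X] (T : X ≃ₜ X) : Set (X ≃ₜ X) :=
  {g | ∃ n : X → ℤ, Continuous n ∧ ∀ x, g x = (T ^ (n x)) x}

/-- The number of elements of word length at most `r` with respect to `S`. -/
noncomputable def growth {G : Type*} [Group G] (S : Finset G) (r : ℕ) : ℕ :=
  Nat.card {g : G // ∃ l : List G, l.length ≤ r ∧ (∀ s ∈ l, s ∈ S ∨ s⁻¹ ∈ S) ∧ l.prod = g}

/-- `G` is finitely generated, and for every finite generating set the growth function is faster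
than every polynomial and slower than every exponential. -/
def IntermediateGrowth (G : Type*) [Group G] : Prop :=
  Group.FG G ∧ ∀ S : Finset G, Subgroup.closure (S : Set G) = ⊤ →
    (∀ d : ℕ, Tendsto (fun r : ℕ => (growth S r : ℝ) / (r : ℝ) ^ d) atTop atTop) ∧
    (∀ c : ℝ, 0 < c → Tendsto (fun r : ℕ => (growth S r : ℝ) / Real.exp (c * r)) atTop (𝓝 0))

/-! ### Part 2: letters and their action on the half line `ℕ` -/

/-- The Thue-Morse sequence. -/
def tm : ℕ → Bool
  | 0 => false
  | n + 1 => xor (Nat.bodd (n + 1)) (tm ((n + 1) / 2))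
termination_by n => n
decreasing_by omega

/-- The label of the edge `N` (between `N - 1` and `N`), `N ≥ 1`; it is `v₂(N) mod 2`. -/
def lab (N : ℕ) : Bool := tm (N - 1) == tm N

/-- Letters: `none` is `a`, `some e` is `b_e`. -/
abbrev Lt := Option Bool

/-- `a` crosses the odd edges. -/
def aA (n : ℕ) : ℕ := if n % 2 = 0 then n + 1 else n - 1

/-- `b_e` crosses the even edges `N ≥ 1` with label `e`. -/
def bA (e : Bool) (n : ℕ) : ℕ :=
  if n = 0 then 0
  else if n % 2 = 0 then (if lab n = e then n - 1 else n)
  else (if lab (n + 1) = e then n + 1 else n)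

/-- Action of a letter. -/
def act1 : Lt → ℕ → ℕ
  | none => aA
  | some e => bA e

/-- Action of a word (the last letter acts first). -/
def act : List Lt → ℕ → ℕ
  | [] => id
  | s :: w => fun n => act1 s (act w n)

/-- The number with coordinates `(ε, m)`: its half is `m`. -/
def unp (ε : Bool) (m : ℕ) : ℕ := 2 * m + (if ε = decide (m % 2 = 0) then 0 else 1)

/-- Parity of the number of letters `a`. -/
def par : List Lt → Bool
  | [] => false
  | none :: w => !(par w)
  | some _ :: w => par w

/-- Sections. -/
def sec (ε : Bool) : List Lt → List Lt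
  | [] => []
  | none :: w => sec ε w
  | some e :: w =>
      (if xor ε (par w) then [some (!e)] else if e then [none] else []) ++ sec ε w

/-- Weight of a letter: `a ↦ 2`, `b_0 ↦ 2`, `b_1 ↦ 3`. -/
def wt1 : Lt → ℕ
  | none => 2
  | some false => 2
  | some true => 3

/-- Weight of a word. -/
def wt (w : List Lt) : ℕ := (w.map wt1).sum

/-- Clusters: `0 ↦ b_0`, `1 ↦ b_1`, `2 ↦ b_0 b_1`. -/
def cl (c : Fin 3) : List Lt :=
  if c = 0 then [some false] else if c = 1 then [some true] else [some false, some true]

/-- The word `a^x (c_1 a) (c_2 a) ... (c_k a) a^y`. -/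
def cw (x : Bool) (cs : List (Fin 3)) (y : Bool) : List Lt :=
  (if x then [none] else []) ++ cs.flatMap (fun c => cl c ++ [none]) ++ (if y then [none] else [])

/-- Weight of a list of clusters, each followed by `a`. -/
def nu (cs : List (Fin 3)) : ℕ := (cs.map fun c => wt (cl c) + 2).sum

/-- Number of single clusters. -/
def sing (cs : List (Fin 3)) : ℕ := cs.countP (fun c => c ≠ 2)

/-- The lists of clusters of weight at most `n` with at most `K` single clusters. -/
def CS (n K : ℕ) : Set (List (Fin 3)) := {cs | nu cs ≤ n ∧ sing cs ≤ K}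

/-- The maps given by the words of weight at most `n`. -/
def BW (n : ℕ) : Set (ℕ → ℕ) := {f | ∃ w : List Lt, wt w ≤ n ∧ act w = f}

/-- The maps given by the words of length at most `n`. -/
def BL (n : ℕ) : Set (ℕ → ℕ) := {f | ∃ w : List Lt, w.length ≤ n ∧ act w = f}

/-- The substitution used for the lower bound. -/
def phi1 : Lt → List Lt
  | none => [none, some true, none]
  | some e => [some (!e)]

/-- The substitution used for the lower bound, on words. -/
def phi (w : List Lt) : List Lt := w.flatMap phi1

/-! ### Part 3: action on sequences -/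

/-- label of the edge `n` (between `n - 1` and `n`) of a bi-infinite sequence -/
def labZ (x : ℤ → Bool) (n : ℤ) : Bool := x (n - 1) == x n

/-- the edge `n` is at an even place -/
def evZ (x : ℤ → Bool) (n : ℤ) : Bool := labZ x n || labZ x (n + 2)

/-- displacement of a letter -/
def kap : Lt → (ℤ → Bool) → ℤ
  | none, x => if evZ x 1 then -1 else 1
  | some e, x => if evZ x 1 then (if labZ x 1 = e then 1 else 0)
      else (if labZ x 0 = e then -1 else 0)

/-- displacement of a word -/
def disp : List Lt → (ℤ → Bool) → ℤ
  | [], _ => 0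
  | s :: w, x => disp w x + kap s (fun n => x (n + disp w x))

/-- the two-sided Thue-Morse sequence -/
def zz (n : ℤ) : Bool := if 0 ≤ n then tm n.toNat else tm (-n - 1).toNat

end H260R4
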