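import Mathlib
import Pool.Agent.H260R4.Defs

namespace H260R4

open Filter Topology

theorem tm_succ (n : ℕ) : tm (n + 1) = xor (Nat.bodd (n + 1)) (tm ((n + 1) / 2)) := by
  rw [tm]

theorem tm_pos {n : ℕ} (hn : 0 < n) : tm n = xor (Nat.bodd n) (tm (n / 2)) := by
  obtain ⟨m, rfl⟩ : ∃ m, n = m + 1 := ⟨n - 1, by omega⟩
  exact tm_succ m

theorem tm_two_mul (n : ℕ) : tm (2 * n) = tm n := by
  rcases Nat.eq_zero_or_pos n with rfl | hn
  · rfl
  · rw [tm_pos (by omega : 0 < 2 * n), show 2 * n / 2 = n by omega]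
    simp [Nat.bodd_mul]

theorem tm_two_mul_add (n : ℕ) : tm (2 * n + 1) = !(tm n) := by
  rw [tm_pos (by omega : 0 < 2 * n + 1), show (2 * n + 1) / 2 = n by omega]
  simp [Nat.bodd_mul, Nat.bodd_add]

theorem tm_block (k c o : ℕ) (ho : o < 2 ^ k) : tm (c * 2 ^ k + o) = xor (tm c) (tm o) := by
  induction k generalizing c o with
  | zero =>
    have : o = 0 := by simpa using ho
    subst this
    simp [tm]
  | succ k ih =>
    obtain ⟨o', r, hr, rfl⟩ : ∃ o' r, r < 2 ∧ o = 2 * o' + r := ⟨o / 2, o % 2, by omega, by omega⟩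
    have ho' : o' < 2 ^ k := by rw [pow_succ] at ho; omega
    have h1 : c * 2 ^ (k + 1) + (2 * o' + r) = 2 * (c * 2 ^ k + o') + r := by rw [pow_succ]; ring
    rw [h1]
    interval_cases r
    · simp only [add_zero]
      rw [tm_two_mul, tm_two_mul, ih c o' ho']
    · rw [tm_two_mul_add, tm_two_mul_add, ih c o' ho']
      cases tm c <;> cases tm o' <;> rfl

theorem tm_four (q r : ℕ) (hr : r < 4) : tm (4 * q + r) = xor (tm q) (tm r) := by
  have := tm_block 2 q r (by simpa using hr)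
  rw [show 4 * q + r = q * 2 ^ 2 + r by ring]
  exact this

theorem tm_rev (m k : ℕ) (hk : k < 4 ^ m) : tm (4 ^ m - 1 - k) = tm k := by
  induction m generalizing k with
  | zero =>
    have : k = 0 := by simpa using hk
    subst this
    rfl
  | succ m ih =>
    obtain ⟨q, r, hr, rfl⟩ : ∃ q r, r < 4 ∧ k = 4 * q + r := ⟨k / 4, k % 4, by omega, by omega⟩
    have hq : q < 4 ^ m := by rw [pow_succ] at hk; omega
    have h1 : 4 ^ (m + 1) - 1 - (4 * q + r) = 4 * (4 ^ m - 1 - q) + (3 - r) := by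
      rw [pow_succ]; omega
    rw [h1, tm_four _ _ (by omega), tm_four _ _ hr, ih q hq]
    congr 1
    have h0 : tm 0 = false := by rw [tm]
    have g1 : tm 1 = true := by have := tm_two_mul_add 0; simpa [h0] using this
    have g2 : tm 2 = true := by have := tm_two_mul 1; simpa [g1] using this
    have g3 : tm 3 = false := by have := tm_two_mul_add 1; simpa [g1] using this
    interval_cases r <;> simp [h0, g1, g2, g3]

theorem lab_odd (n : ℕ) (hn : n % 2 = 1) : lab n = false := by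
  obtain ⟨m, rfl⟩ : ∃ m, n = 2 * m + 1 := ⟨n / 2, by omega⟩
  unfold lab
  rw [show 2 * m + 1 - 1 = 2 * m by omega, tm_two_mul, tm_two_mul_add]
  cases tm m <;> rfl

theorem lab_two_mul (m : ℕ) (hm : 1 ≤ m) : lab (2 * m) = !(lab m) := by
  obtain ⟨m, rfl⟩ : ∃ m', m = m' + 1 := ⟨m - 1, by omega⟩
  unfold lab
  rw [show 2 * (m + 1) - 1 = 2 * m + 1 by omega, tm_two_mul_add, tm_two_mul,
    show m + 1 - 1 = m by omega]
  cases tm m <;> cases tm (m + 1) <;> rfl

end H260R4
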