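import Mathlib
import Pool.Agent.H260R4.Defs
import Pool.Agent.H260R4.A1

namespace H260R4

open Filter Topology

theorem A2_unp_div (ε : Bool) (m : ℕ) : unp ε m / 2 = m := by
  unfold unp
  split_ifs <;> omega

theorem unp_inj {ε ε' : Bool} {m m' : ℕ} (h : unp ε m = unp ε' m') : ε = ε' ∧ m = m' := by
  have h1 : m = m' := by rw [← A2_unp_div ε m, h, A2_unp_div]
  subst h1
  refine ⟨?_, rfl⟩
  unfold unp at h
  rcases Nat.mod_two_eq_zero_or_one m with hm | hm
  · cases ε <;> cases ε' <;> simp_all
  · cases ε <;> cases ε' <;> simp_all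

theorem unp_surj (n : ℕ) : ∃ ε m, unp ε m = n := by
  rcases Nat.mod_two_eq_zero_or_one n with hn | hn
  · refine ⟨decide ((n / 2) % 2 = 0), n / 2, ?_⟩
    unfold unp
    rw [if_pos rfl]
    omega
  · refine ⟨!(decide ((n / 2) % 2 = 0)), n / 2, ?_⟩
    unfold unp
    rw [if_neg (by simp)]
    omega

theorem act_append (w w' : List Lt) (n : ℕ) : act (w ++ w') n = act w (act w' n) := by
  induction w with
  | nil => rfl
  | cons s w ih =>
    show act1 s (act (w ++ w') n) = act1 s (act w (act w' n))
    rw [ih]

theorem A2_bA_zero (e : Bool) : bA e 0 = 0 := rfl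

theorem A2_bA_even (e : Bool) (n : ℕ) (h0 : n ≠ 0) (h : n % 2 = 0) :
    bA e n = if lab n = e then n - 1 else n := by
  unfold bA
  rw [if_neg h0, if_pos h]

theorem A2_bA_odd (e : Bool) (n : ℕ) (h : n % 2 = 1) :
    bA e n = if lab (n + 1) = e then n + 1 else n := by
  unfold bA
  rw [if_neg (by omega), if_neg (by omega)]

theorem A2_aA_even (n : ℕ) (h : n % 2 = 0) : aA n = n + 1 := by
  unfold aA
  rw [if_pos h]

theorem A2_aA_odd (n : ℕ) (h : n % 2 = 1) : aA n = n - 1 := by
  unfold aA
  rw [if_neg (by omega)]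

theorem act1_invol (s : Lt) (n : ℕ) : act1 s (act1 s n) = n := by
  cases s with
  | none =>
    show aA (aA n) = n
    rcases Nat.mod_two_eq_zero_or_one n with hn | hn
    · rw [A2_aA_even n hn, A2_aA_odd (n + 1) (by omega)]
      omega
    · rw [A2_aA_odd n hn, A2_aA_even (n - 1) (by omega)]
      omega
  | some e =>
    show bA e (bA e n) = n
    by_cases h0 : n = 0
    · subst h0
      rfl
    rcases Nat.mod_two_eq_zero_or_one n with hn | hn
    · rw [A2_bA_even e n h0 hn]
      by_cases hl : lab n = e
      · rw [if_pos hl, A2_bA_odd e (n - 1) (by omega)]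
        have h1 : n - 1 + 1 = n := by omega
        rw [h1, if_pos hl]
      · rw [if_neg hl, A2_bA_even e n h0 hn, if_neg hl]
    · rw [A2_bA_odd e n hn]
      by_cases hl : lab (n + 1) = e
      · rw [if_pos hl, A2_bA_even e (n + 1) (by omega) (by omega), if_pos hl]
        omega
      · rw [if_neg hl, A2_bA_odd e n hn, if_neg hl]

theorem bA_comm (n : ℕ) : bA false (bA true n) = bA true (bA false n) := by
  by_cases h0 : n = 0
  · subst h0
    rfl
  rcases Nat.mod_two_eq_zero_or_one n with hn | hn
  · have h1 : n - 1 + 1 = n := by omega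
    have h2 : (n - 1) % 2 = 1 := by omega
    cases hl : lab n with
    | false =>
      rw [A2_bA_even true n h0 hn, A2_bA_even false n h0 hn, if_neg (by rw [hl]; decide),
        if_pos hl, A2_bA_even false n h0 hn, if_pos hl, A2_bA_odd true _ h2, h1,
        if_neg (by rw [hl]; decide)]
    | true =>
      rw [A2_bA_even true n h0 hn, A2_bA_even false n h0 hn, if_pos hl,
        if_neg (by rw [hl]; decide), A2_bA_even true n h0 hn, if_pos hl, A2_bA_odd false _ h2, h1,
        if_neg (by rw [hl]; decide)]
  · have h1 : n + 1 - 1 = n := by omega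
    have h2 : (n + 1) % 2 = 0 := by omega
    cases hl : lab (n + 1) with
    | false =>
      rw [A2_bA_odd true n hn, A2_bA_odd false n hn, if_neg (by rw [hl]; decide),
        if_pos hl, A2_bA_odd false n hn, if_pos hl, A2_bA_even true _ (by omega) h2,
        if_neg (by rw [hl]; decide)]
    | true =>
      rw [A2_bA_odd true n hn, A2_bA_odd false n hn, if_pos hl,
        if_neg (by rw [hl]; decide), A2_bA_odd true n hn, if_pos hl,
        A2_bA_even false _ (by omega) h2, if_neg (by rw [hl]; decide)]

theorem A2_unp_te (m : ℕ) (h : m % 2 = 0) : unp true m = 2 * m := by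
  unfold unp
  rw [if_pos (by simp [h])]
  rfl

theorem A2_unp_to (m : ℕ) (h : m % 2 = 1) : unp true m = 2 * m + 1 := by
  unfold unp
  rw [if_neg (by simp [h])]

theorem A2_unp_fe (m : ℕ) (h : m % 2 = 0) : unp false m = 2 * m + 1 := by
  unfold unp
  rw [if_neg (by simp [h])]

theorem A2_unp_fo (m : ℕ) (h : m % 2 = 1) : unp false m = 2 * m := by
  unfold unp
  rw [if_pos (by simp [h])]
  rfl

theorem A2_aA_unp (ε : Bool) (m : ℕ) : aA (unp ε m) = unp (!ε) m := by
  rcases Nat.mod_two_eq_zero_or_one m with hm | hm
  · cases ε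
    · rw [A2_unp_fe m hm, Bool.not_false, A2_unp_te m hm, A2_aA_odd _ (by omega)]
      omega
    · rw [A2_unp_te m hm, Bool.not_true, A2_unp_fe m hm, A2_aA_even _ (by omega)]
  · cases ε
    · rw [A2_unp_fo m hm, Bool.not_false, A2_unp_to m hm, A2_aA_even _ (by omega)]
    · rw [A2_unp_to m hm, Bool.not_true, A2_unp_fo m hm, A2_aA_odd _ (by omega)]
      omega

theorem A2_bA_unp_false (f : Bool) (m : ℕ) :
    bA f (unp false m) = unp false (if f then aA m else m) := by
  rcases Nat.mod_two_eq_zero_or_one m with hm | hm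
  · have hl : lab (2 * m + 1 + 1) = true := by
      have h1 : 2 * m + 1 + 1 = 2 * (m + 1) := by ring
      rw [h1, lab_two_mul _ (by omega), lab_odd _ (by omega)]
      rfl
    rw [A2_unp_fe m hm, A2_bA_odd _ _ (by omega), hl]
    cases f
    · rw [if_neg (by decide), if_neg (by decide), A2_unp_fe m hm]
    · rw [if_pos rfl, if_pos rfl, A2_aA_even m hm, A2_unp_fo _ (by omega)]
      ring
  · have hl : lab (2 * m) = true := by
      rw [lab_two_mul _ (by omega), lab_odd _ (by omega)]
      rfl
    rw [A2_unp_fo m hm, A2_bA_even _ _ (by omega) (by omega), hl]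
    cases f
    · rw [if_neg (by decide), if_neg (by decide), A2_unp_fo m hm]
    · rw [if_pos rfl, if_pos rfl, A2_aA_odd m hm, A2_unp_fe _ (by omega)]
      omega

theorem A2_bA_unp_true (f : Bool) (m : ℕ) :
    bA f (unp true m) = unp true (bA (!f) m) := by
  rcases Nat.mod_two_eq_zero_or_one m with hm | hm
  · by_cases h0 : m = 0
    · subst h0
      rfl
    · rw [A2_unp_te m hm, A2_bA_even _ _ (by omega) (by omega), lab_two_mul _ (by omega),
        A2_bA_even _ _ h0 hm]
      by_cases hl : lab m = !f
      · rw [if_pos hl, hl, Bool.not_not, if_pos rfl, A2_unp_to _ (by omega)]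
        omega
      · rw [if_neg hl, A2_unp_te m hm, if_neg]
        intro h
        apply hl
        rw [← h, Bool.not_not]
  · rw [A2_unp_to m hm, A2_bA_odd _ _ (by omega)]
    have h1 : 2 * m + 1 + 1 = 2 * (m + 1) := by ring
    rw [h1, lab_two_mul _ (by omega), A2_bA_odd _ _ hm]
    by_cases hl : lab (m + 1) = !f
    · rw [if_pos hl, hl, Bool.not_not, if_pos rfl, A2_unp_te _ (by omega)]
    · rw [if_neg hl, A2_unp_to m hm, if_neg]
      intro h
      apply hl
      rw [← h, Bool.not_not]

theorem act_sec (w : List Lt) (ε : Bool) (m : ℕ) :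
    act w (unp ε m) = unp (xor ε (par w)) (act (sec ε w) m) := by
  induction w with
  | nil =>
    show unp ε m = unp (xor ε false) m
    rw [Bool.xor_false]
  | cons s w ih =>
    cases s with
    | none =>
      show aA (act w (unp ε m)) = unp (xor ε (!(par w))) (act (sec ε w) m)
      rw [ih, A2_aA_unp, Bool.xor_not]
    | some e =>
      show bA e (act w (unp ε m)) = unp (xor ε (par w))
        (act ((if xor ε (par w) then [some (!e)] else if e then [none] else []) ++ sec ε w) m)
      rw [ih, act_append]
      cases hx : xor ε (par w) with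
      | false =>
        rw [A2_bA_unp_false]
        cases e <;> rfl
      | true =>
        rw [A2_bA_unp_true]
        rfl

theorem act_eq_iff (w w' : List Lt) : act w = act w' ↔
    par w = par w' ∧ act (sec false w) = act (sec false w') ∧
      act (sec true w) = act (sec true w') := by
  constructor
  · intro h
    have h1 : ∀ (ε : Bool) (m : ℕ), xor ε (par w) = xor ε (par w') ∧
        act (sec ε w) m = act (sec ε w') m := by
      intro ε m
      apply unp_inj
      rw [← act_sec, ← act_sec, h]
    refine ⟨?_, funext fun m => (h1 false m).2, funext fun m => (h1 true m).2⟩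
    have h2 := (h1 false 0).1
    rwa [Bool.false_xor, Bool.false_xor] at h2
  · rintro ⟨h1, h2, h3⟩
    funext n
    obtain ⟨ε, m, rfl⟩ := unp_surj n
    rw [act_sec, act_sec, h1]
    cases ε
    · rw [h2]
    · rw [h3]

end H260R4
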