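import Mathlib
import Pool.Agent.H260R4.Defs
import Pool.Agent.H260R4.A2

namespace H260R4

open Filter Topology

theorem A10_ss (s : Lt) (w : List Lt) : act (s :: s :: w) = act w :=
  funext fun n => act1_invol s (act w n)

theorem A10_cons (s : Lt) {w w' : List Lt} (h : act w = act w') : act (s :: w) = act (s :: w') := by
  funext n
  change act1 s (act w n) = act1 s (act w' n)
  rw [h]

theorem A10_rel : act [none, some false, none, some false]
    = act [some false, none, some false, none] :=
  (act_eq_iff _ _).2 ⟨rfl, rfl, rfl⟩

/-- the alternating words -/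
def A10_L : List (List Lt) :=
  [[], [none], [some false], [none, some false], [some false, none], [none, some false, none],
    [some false, none, some false], [none, some false, none, some false]]

theorem A10_step (s : Lt) (hs : s = none ∨ s = some false) (v : List Lt) (hv : v ∈ A10_L) :
    ∃ v' ∈ A10_L, act (s :: v) = act v' := by
  have h1 := A10_ss
  simp only [A10_L, List.mem_cons, List.not_mem_nil, or_false] at hv
  rcases hs with rfl | rfl
  · rcases hv with rfl | rfl | rfl | rfl | rfl | rfl | rfl | rfl
    · exact ⟨[none], by simp [A10_L], rfl⟩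
    · exact ⟨[], by simp [A10_L], h1 _ _⟩
    · exact ⟨[none, some false], by simp [A10_L], rfl⟩
    · exact ⟨[some false], by simp [A10_L], h1 _ _⟩
    · exact ⟨[none, some false, none], by simp [A10_L], rfl⟩
    · exact ⟨[some false, none], by simp [A10_L], h1 _ _⟩
    · exact ⟨[none, some false, none, some false], by simp [A10_L], rfl⟩
    · exact ⟨[some false, none, some false], by simp [A10_L], h1 _ _⟩
  · rcases hv with rfl | rfl | rfl | rfl | rfl | rfl | rfl | rfl
    · exact ⟨[some false], by simp [A10_L], rfl⟩
    · exact ⟨[some false, none], by simp [A10_L], rfl⟩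
    · exact ⟨[], by simp [A10_L], h1 _ _⟩
    · exact ⟨[some false, none, some false], by simp [A10_L], rfl⟩
    · exact ⟨[none], by simp [A10_L], h1 _ _⟩
    · exact ⟨[none, some false, none, some false], by simp [A10_L], A10_rel.symm⟩
    · exact ⟨[none, some false], by simp [A10_L], h1 _ _⟩
    · exact ⟨[none, some false, none], by simp [A10_L], (A10_cons _ A10_rel).trans (h1 _ _)⟩

theorem dihedral_finite :
    {f : ℕ → ℕ | ∃ w : List Lt, (∀ s ∈ w, s = none ∨ s = some false) ∧ act w = f}.Finite := by
  have key : ∀ w : List Lt, (∀ s ∈ w, s = none ∨ s = some false) →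
      ∃ v ∈ A10_L, act w = act v := by
    intro w
    induction w with
    | nil => exact fun _ => ⟨[], by simp [A10_L], rfl⟩
    | cons s w ih =>
      intro h
      obtain ⟨v, hv, hw⟩ := ih fun t ht => h t (List.mem_cons_of_mem _ ht)
      obtain ⟨v', hv', hw'⟩ := A10_step s (h s List.mem_cons_self) v hv
      exact ⟨v', hv', (A10_cons s hw).trans hw'⟩
  refine (A10_L.finite_toSet.image act).subset ?_
  rintro f ⟨w, hw, rfl⟩
  obtain ⟨v, hv, h⟩ := key w hw
  exact ⟨v, hv, h.symm⟩

end H260R4
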