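import Mathlib
import Pool.Agent.H260R4.Defs

namespace H260R4

open Filter Topology

theorem A6_wt_cons (s : Lt) (w : List Lt) : wt (s :: w) = wt1 s + wt w := by
  simp [wt]

theorem A6_wt1_ge (s : Lt) : 2 ≤ wt1 s := by
  rcases s with _ | s
  · simp [wt1]
  · cases s <;> simp [wt1]

theorem A6_wt1_le (s : Lt) : wt1 s ≤ 3 := by
  rcases s with _ | s
  · simp [wt1]
  · cases s <;> simp [wt1]

theorem A6_length_le (w : List Lt) : w.length ≤ wt w := by
  induction w with
  | nil => simp
  | cons s w ih =>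
    rw [A6_wt_cons, List.length_cons]
    have := A6_wt1_ge s
    omega

theorem A6_wt_le (w : List Lt) : wt w ≤ 3 * w.length := by
  induction w with
  | nil => simp [wt]
  | cons s w ih =>
    rw [A6_wt_cons, List.length_cons]
    have := A6_wt1_le s
    omega

theorem BL_finite (n : ℕ) : (BL n).Finite := by
  refine ((List.finite_length_le Lt n).image act).subset ?_
  rintro f ⟨w, hw, rfl⟩
  exact ⟨w, hw, rfl⟩

theorem BW_finite (n : ℕ) : (BW n).Finite := by
  refine (BL_finite n).subset ?_
  rintro f ⟨w, hw, rfl⟩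
  exact ⟨w, (A6_length_le w).trans hw, rfl⟩

theorem A6_BW_sub (n : ℕ) : BW n ⊆ {id} ∪
    ((fun g => act1 none ∘ g) '' BW (n - 2) ∪ (fun g => act1 (some false) ∘ g) '' BW (n - 2)) ∪
      (if 3 ≤ n then (fun g => act1 (some true) ∘ g) '' BW (n - 3) else ∅) := by
  rintro f ⟨w, hw, rfl⟩
  cases w with
  | nil => exact Or.inl (Or.inl rfl)
  | cons s w =>
    rw [A6_wt_cons] at hw
    rcases s with _ | s
    · refine Or.inl (Or.inr (Or.inl ⟨act w, ⟨w, ?_, rfl⟩, rfl⟩))
      have h1 : wt1 none = 2 := rfl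
      omega
    · cases s
      · refine Or.inl (Or.inr (Or.inr ⟨act w, ⟨w, ?_, rfl⟩, rfl⟩))
        have h1 : wt1 (some false) = 2 := rfl
        omega
      · have h1 : wt1 (some true) = 3 := rfl
        refine Or.inr ?_
        rw [if_pos (by omega)]
        exact ⟨act w, ⟨w, by omega, rfl⟩, rfl⟩

theorem A6_BW_small (n : ℕ) (hn : n < 2) : BW n ⊆ {id} := by
  rintro f ⟨w, hw, rfl⟩
  cases w with
  | nil => rfl
  | cons s w =>
    rw [A6_wt_cons] at hw
    have := A6_wt1_ge s
    omega

theorem BW_card (n : ℕ) : (BW n).ncard ≤ 4 ^ n := by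
  induction n using Nat.strong_induction_on with
  | _ n ih =>
    by_cases hn : n < 2
    · calc (BW n).ncard ≤ ({id} : Set (ℕ → ℕ)).ncard :=
          Set.ncard_le_ncard (A6_BW_small n hn) (Set.finite_singleton _)
        _ = 1 := Set.ncard_singleton _
        _ ≤ 4 ^ n := Nat.one_le_pow _ _ (by norm_num)
    · have h2 := ih (n - 2) (by omega)
      have hA : ((fun g => act1 none ∘ g) '' BW (n - 2)).ncard ≤ 4 ^ (n - 2) :=
        (Set.ncard_image_le (BW_finite _)).trans h2
      have hB : ((fun g => act1 (some false) ∘ g) '' BW (n - 2)).ncard ≤ 4 ^ (n - 2) :=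
        (Set.ncard_image_le (BW_finite _)).trans h2
      have hC : (if 3 ≤ n then (fun g => act1 (some true) ∘ g) '' BW (n - 3) else ∅).ncard ≤
          4 ^ (n - 2) := by
        split_ifs with h3
        · refine (Set.ncard_image_le (BW_finite _)).trans ((ih (n - 3) (by omega)).trans ?_)
          exact Nat.pow_le_pow_right (by norm_num) (by omega)
        · rw [Set.ncard_empty]
          exact Nat.zero_le _
      have hfin : ({id} ∪ ((fun g => act1 none ∘ g) '' BW (n - 2) ∪
          (fun g => act1 (some false) ∘ g) '' BW (n - 2)) ∪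
          (if 3 ≤ n then (fun g => act1 (some true) ∘ g) '' BW (n - 3) else ∅)).Finite := by
        refine ((Set.finite_singleton _).union (((BW_finite _).image _).union
          ((BW_finite _).image _))).union ?_
        split_ifs
        · exact (BW_finite _).image _
        · exact Set.finite_empty
      have h4 := Set.ncard_le_ncard (A6_BW_sub n) hfin
      have h5 := Set.ncard_union_le ({id} ∪ ((fun g => act1 none ∘ g) '' BW (n - 2) ∪
          (fun g => act1 (some false) ∘ g) '' BW (n - 2)))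
          (if 3 ≤ n then (fun g => act1 (some true) ∘ g) '' BW (n - 3) else ∅)
      have h6 := Set.ncard_union_le ({id} : Set (ℕ → ℕ)) ((fun g => act1 none ∘ g) '' BW (n - 2) ∪
          (fun g => act1 (some false) ∘ g) '' BW (n - 2))
      have h7 := Set.ncard_union_le ((fun g => act1 none ∘ g) '' BW (n - 2))
          ((fun g => act1 (some false) ∘ g) '' BW (n - 2))
      rw [Set.ncard_singleton] at h6
      have h8 : 1 ≤ 4 ^ (n - 2) := Nat.one_le_pow _ _ (by norm_num)
      have h9 : 4 ^ n = 16 * 4 ^ (n - 2) := by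
        obtain ⟨k, rfl⟩ : ∃ k, n = k + 2 := ⟨n - 2, by omega⟩
        rw [Nat.add_sub_cancel, pow_add]
        ring
      omega

theorem BL_subset (n : ℕ) : BL n ⊆ BW (3 * n) := by
  rintro f ⟨w, hw, rfl⟩
  exact ⟨w, (A6_wt_le w).trans (Nat.mul_le_mul_left 3 hw), rfl⟩

theorem BL_mono {m n : ℕ} (h : m ≤ n) : BL m ⊆ BL n := by
  rintro f ⟨w, hw, rfl⟩
  exact ⟨w, hw.trans h, rfl⟩

end H260R4
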