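import Mathlib
import Pool.Agent.H260R4.Defs

namespace H260R4

open Filter Topology

theorem A9_phi_cons (s : Lt) (w : List Lt) : phi (s :: w) = phi1 s ++ phi w := by
  simp [phi]

theorem par_phi (w : List Lt) : par (phi w) = false := by
  induction w with
  | nil => rfl
  | cons s w ih =>
    rw [A9_phi_cons]
    cases s with
    | none => simp [phi1, par, ih]
    | some e => simp [phi1, par, ih]

theorem sec_true_phi (w : List Lt) : sec true (phi w) = w := by
  induction w with
  | nil => rfl
  | cons s w ih =>
    have hp := par_phi w
    rw [A9_phi_cons]
    cases s with
    | none => simp [phi1, par, sec, hp, ih]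
    | some e => simp [phi1, sec, hp, ih]

theorem sec_false_phi (w : List Lt) : ∀ s ∈ sec false (phi w), s = none ∨ s = some false := by
  induction w with
  | nil => intro s hs; simp [phi, sec] at hs
  | cons s w ih =>
    have hp := par_phi w
    rw [A9_phi_cons]
    intro t ht
    cases s with
    | none =>
      simp only [phi1, par, sec, hp, List.cons_append, List.nil_append] at ht
      simp at ht
      rcases ht with ht | ht
      · exact Or.inr ht
      · exact ih t ht
    | some e =>
      cases e with
      | false =>
        simp [phi1, sec, hp] at ht
        rcases ht with ht | ht
        · exact Or.inl ht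
        · exact ih t ht
      | true =>
        simp [phi1, sec, hp] at ht
        exact ih t ht

theorem phi_length (w : List Lt) : (phi w).length ≤ 3 * w.length := by
  induction w with
  | nil => simp [phi]
  | cons s w ih =>
    rw [A9_phi_cons, List.length_append, List.length_cons]
    have : (phi1 s).length ≤ 3 := by
      cases s with
      | none => simp [phi1]
      | some e => simp [phi1]
    omega

end H260R4
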