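import Mathlib
import Pool.Agent.H260R4.Defs
import Pool.Agent.H260R4.A2
import Pool.Agent.H260R4.A6
import Pool.Agent.H260R4.A9
import Pool.Agent.H260R4.A10

namespace H260R4

open Filter Topology

theorem a11_bij (w : List Lt) : Function.Bijective (act w) := by
  induction w with
  | nil => exact Function.bijective_id
  | cons s w ih =>
    have h : Function.Bijective (act1 s) :=
      Function.Involutive.bijective (fun n => act1_invol s n)
    exact h.comp ih

theorem a11_none (ε : Bool) (m : ℕ) : act [none] (unp ε m) = unp (!ε) m := by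
  rw [act_sec]
  have h1 : par [none] = true := rfl
  have h2 : sec ε [none] = [] := rfl
  rw [h1, h2]
  cases ε <;> rfl

/-- the word coding a pair -/
def a11W (u v : List Lt) : List Lt := phi u ++ ([none] ++ (phi v ++ [none]))

theorem a11_true (u v : List Lt) (m : ℕ) : act (a11W u v) (unp true m) =
    unp true (act u (act (sec false (phi v)) m)) := by
  unfold a11W
  rw [act_append, act_append, act_append, a11_none, act_sec, par_phi, Bool.not_true,
    Bool.xor_false, a11_none, act_sec, par_phi, Bool.not_false, sec_true_phi, Bool.xor_false]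

theorem a11_false (u v : List Lt) (m : ℕ) : act (a11W u v) (unp false m) =
    unp false (act (sec false (phi u)) (act v m)) := by
  unfold a11W
  rw [act_append, act_append, act_append, a11_none, act_sec, par_phi, Bool.not_false,
    Bool.xor_false, sec_true_phi, a11_none, act_sec, par_phi, Bool.not_true, Bool.xor_false]

theorem a11_len (u v : List Lt) (r : ℕ) (hu : u.length ≤ r) (hv : v.length ≤ r) :
    (a11W u v).length ≤ 6 * r + 2 := by
  have h1 := phi_length u
  have h2 := phi_length v
  simp only [a11W, List.length_append, List.length_cons, List.length_nil]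
  omega

theorem BL_rec : ∃ M : ℕ, 0 < M ∧ ∀ r, (BL r).ncard ^ 2 ≤ M * (BL (6 * r + 2)).ncard := by
  classical
  set Dh : Set (ℕ → ℕ) :=
    {f : ℕ → ℕ | ∃ w : List Lt, (∀ s ∈ w, s = none ∨ s = some false) ∧ act w = f} with hDh
  have hfin : Dh.Finite := dihedral_finite
  refine ⟨Dh.ncard * Dh.ncard + 1, by positivity, fun r => ?_⟩
  have hch : ∀ f : ℕ → ℕ, ∃ w : List Lt, f ∈ BL r → w.length ≤ r ∧ act w = f := by
    intro f
    by_cases hf : f ∈ BL r
    · obtain ⟨w, h1, h2⟩ := hf
      exact ⟨w, fun _ => ⟨h1, h2⟩⟩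
    · exact ⟨[], fun h => absurd h hf⟩
  choose wd hwd using hch
  set F : (ℕ → ℕ) × (ℕ → ℕ) → (ℕ → ℕ) × ((ℕ → ℕ) × (ℕ → ℕ)) := fun p =>
    (act (a11W (wd p.1) (wd p.2)),
      (act (sec false (phi (wd p.1))), act (sec false (phi (wd p.2))))) with hF
  have hmaps : ∀ p ∈ BL r ×ˢ BL r, F p ∈ BL (6 * r + 2) ×ˢ (Dh ×ˢ Dh) := by
    rintro ⟨f, g⟩ ⟨hf, hg⟩
    refine ⟨⟨_, a11_len _ _ r (hwd f hf).1 (hwd g hg).1, rfl⟩,
      ⟨_, sec_false_phi _, rfl⟩, ⟨_, sec_false_phi _, rfl⟩⟩
  have hinj : Set.InjOn F (BL r ×ˢ BL r) := by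
    rintro ⟨f, g⟩ ⟨hf, hg⟩ ⟨f', g'⟩ ⟨hf', hg'⟩ h
    have h1 : act (a11W (wd f) (wd g)) = act (a11W (wd f') (wd g')) := congrArg Prod.fst h
    have h2 : act (sec false (phi (wd f))) = act (sec false (phi (wd f'))) :=
      congrArg (fun p => p.2.1) h
    have h3 : act (sec false (phi (wd g))) = act (sec false (phi (wd g'))) :=
      congrArg (fun p => p.2.2) h
    have e1 : f = f' := by
      funext n
      obtain ⟨m, hm⟩ := (a11_bij (sec false (phi (wd g)))).2 n
      have h4 := a11_true (wd f) (wd g) m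
      rw [h1, a11_true (wd f') (wd g') m, ← h3, hm, (hwd f hf).2, (hwd f' hf').2] at h4
      exact (unp_inj h4).2.symm
    have e2 : g = g' := by
      funext n
      have h4 := a11_false (wd f) (wd g) n
      rw [h1, a11_false (wd f') (wd g') n, ← h2] at h4
      have h5 := (a11_bij (sec false (phi (wd f)))).1 (unp_inj h4).2
      rw [(hwd g hg).2, (hwd g' hg').2] at h5
      exact h5.symm
    rw [e1, e2]
  have hcard := Set.ncard_le_ncard_of_injOn F hmaps hinj
    ((BL_finite (6 * r + 2)).prod (hfin.prod hfin))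
  rw [Set.ncard_prod, Set.ncard_prod, Set.ncard_prod] at hcard
  calc (BL r).ncard ^ 2 = (BL r).ncard * (BL r).ncard := sq _
    _ ≤ (BL (6 * r + 2)).ncard * (Dh.ncard * Dh.ncard) := hcard
    _ ≤ (Dh.ncard * Dh.ncard + 1) * (BL (6 * r + 2)).ncard := by
        rw [mul_comm (BL (6 * r + 2)).ncard]
        exact Nat.mul_le_mul_right _ (Nat.le_succ _)

end H260R4
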