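import Mathlib
import Pool.Agent.H260R4.Defs
import Pool.Agent.H260R4.A6

namespace H260R4

open Filter Topology

/-- the word `(b_0 b_1 a)^k` -/
def a12_w : ℕ → List Lt
  | 0 => []
  | k + 1 => some false :: some true :: none :: a12_w k

theorem a12_len (k : ℕ) : (a12_w k).length = 3 * k := by
  induction k with
  | zero => rfl
  | succ k ih => simp only [a12_w, List.length_cons, ih]; ring

theorem a12_step (j : ℕ) : bA false (bA true (aA (2 * j))) = 2 * (j + 1) := by
  have h0 : aA (2 * j) = 2 * j + 1 := by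
    unfold aA
    rw [if_pos (by omega)]
  rw [h0]
  have hodd : ¬ (2 * j + 1) % 2 = 0 := by omega
  have hne : 2 * j + 1 ≠ 0 := by omega
  have heven : (2 * j + 1 + 1) % 2 = 0 := by omega
  have hne2 : 2 * j + 1 + 1 ≠ 0 := by omega
  by_cases hl : lab (2 * j + 1 + 1) = true
  · have h1 : bA true (2 * j + 1) = 2 * j + 1 + 1 := by
      unfold bA
      rw [if_neg hne, if_neg hodd, if_pos hl]
    rw [h1]
    unfold bA
    rw [if_neg hne2, if_pos heven, if_neg (by rw [hl]; decide)]
    ring
  · have h1 : bA true (2 * j + 1) = 2 * j + 1 := by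
      unfold bA
      rw [if_neg hne, if_neg hodd, if_neg hl]
    rw [h1]
    have hl2 : lab (2 * j + 1 + 1) = false := by
      cases h : lab (2 * j + 1 + 1)
      · rfl
      · exact absurd h hl
    unfold bA
    rw [if_neg hne, if_neg hodd, if_pos hl2]
    ring

theorem a12_act (k : ℕ) : act (a12_w k) 0 = 2 * k := by
  induction k with
  | zero => rfl
  | succ k ih =>
    show bA false (bA true (aA (act (a12_w k) 0))) = 2 * (k + 1)
    rw [ih]
    exact a12_step k

theorem BL_unbounded (k : ℕ) : ∃ r, k ≤ (BL r).ncard := by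
  refine ⟨3 * k, ?_⟩
  have hinj : Function.Injective (fun j : ℕ => act (a12_w j)) := by
    intro i j hij
    have h1 : act (a12_w i) 0 = act (a12_w j) 0 := congrFun hij 0
    rw [a12_act, a12_act] at h1
    omega
  have hsub : (fun j : ℕ => act (a12_w j)) '' (Finset.range (k + 1) : Set ℕ) ⊆ BL (3 * k) := by
    rintro f ⟨j, hj, rfl⟩
    refine ⟨a12_w j, ?_, rfl⟩
    rw [a12_len]
    have : j < k + 1 := Finset.mem_range.1 (Finset.mem_coe.1 hj)
    omega
  have h2 := Set.ncard_le_ncard hsub (BL_finite (3 * k))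
  rw [Set.ncard_image_of_injective _ hinj, Set.ncard_coe_finset, Finset.card_range] at h2
  omega

end H260R4
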