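import Mathlib
import Pool.Agent.H260R4.Defs

namespace H260R4

open Filter Topology

theorem A13_k (k : ℕ) : (k + 1) ^ 2 ≤ 4 * 2 ^ k := by
  induction k with
  | zero => norm_num
  | succ n ih =>
    rcases Nat.lt_or_ge n 2 with h | h
    · interval_cases n <;> norm_num
    · have : (2 : ℕ) ^ (n + 1) = 2 * 2 ^ n := by ring
      nlinarith

theorem A13_lin (a k : ℕ) : a * (k + 1) ≤ a ^ 2 + 2 ^ k := by
  have h1 := A13_k k
  have h2 : (4 : ℤ) * (a * (k + 1)) ≤ 4 * (a ^ 2 + 2 ^ k) := by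
    have h3 : ((k : ℤ) + 1) ^ 2 ≤ 4 * 2 ^ k := by exact_mod_cast h1
    nlinarith [sq_nonneg (2 * (a : ℤ) - (k + 1))]
  have h4 : (a : ℤ) * (k + 1) ≤ a ^ 2 + 2 ^ k := by linarith
  exact_mod_cast h4

theorem superpoly_of_rec (N : ℕ → ℕ) (M : ℕ) (hM : 0 < M) (hmono : Monotone N)
    (hrec : ∀ r, N r ^ 2 ≤ M * N (6 * r + 2)) (hunb : ∀ k, ∃ r, k ≤ N r) (d : ℕ) :
    Tendsto (fun r : ℕ => (N r : ℝ) / (r : ℝ) ^ d) atTop atTop := by
  obtain ⟨r1, hr1⟩ := hunb (2 * M)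
  obtain ⟨r0, hr0, hr0'⟩ : ∃ r0, 1 ≤ r0 ∧ 2 * M ≤ N r0 :=
    ⟨r1 + 1, by omega, hr1.trans (hmono (by omega))⟩
  have h8 : ∀ r, 1 ≤ r → N r ^ 2 ≤ M * N (8 * r) := fun r hr =>
    (hrec r).trans (Nat.mul_le_mul_left _ (hmono (by omega)))
  have hk : ∀ k : ℕ, M * 2 ^ (2 ^ k) ≤ N (8 ^ k * r0) := by
    intro k
    induction k with
    | zero => simpa [mul_comm] using hr0'
    | succ k ih =>
      have h1 := h8 (8 ^ k * r0) (Nat.mul_pos (by positivity) hr0)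
      have h2 : (M * 2 ^ (2 ^ k)) ^ 2 ≤ M * N (8 * (8 ^ k * r0)) :=
        (Nat.pow_le_pow_left ih 2).trans h1
      have h3 : (M * 2 ^ (2 ^ k)) ^ 2 = M * (M * 2 ^ (2 ^ (k + 1))) := by
        rw [pow_succ 2 k, pow_mul]; ring
      rw [h3] at h2
      have h4 := Nat.le_of_mul_le_mul_left h2 hM
      have h5 : 8 * (8 ^ k * r0) = 8 ^ (k + 1) * r0 := by ring
      rwa [h5] at h4
  obtain ⟨C, hC⟩ : ∃ C : ℕ, C = r0 ^ (d + 1) * 2 ^ (9 * (d + 1) ^ 2) := ⟨_, rfl⟩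
  have hC0 : 0 < C := by rw [hC]; positivity
  have hmain : ∀ r, r0 ≤ r → r ^ (d + 1) ≤ C * N r := by
    intro r hr
    obtain ⟨k, hkd⟩ : ∃ k, k = Nat.log 8 (r / r0) := ⟨_, rfl⟩
    have hne : r / r0 ≠ 0 := (Nat.div_pos hr hr0).ne'
    have h1 : 8 ^ k ≤ r / r0 := by rw [hkd]; exact Nat.pow_log_le_self 8 hne
    have h2 : r / r0 < 8 ^ (k + 1) := by
      rw [hkd]; exact Nat.lt_pow_succ_log_self (by norm_num) _
    have h3 : 8 ^ k * r0 ≤ r := (Nat.mul_le_mul_right _ h1).trans (Nat.div_mul_le_self r r0)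
    have h4 : r ≤ 8 ^ (k + 1) * r0 := by
      have := (Nat.div_lt_iff_lt_mul hr0).1 h2
      exact this.le
    have h5 : 2 ^ (2 ^ k) ≤ N r :=
      (Nat.le_mul_of_pos_left _ hM).trans ((hk k).trans (hmono h3))
    have h6 : 3 * (d + 1) * (k + 1) ≤ 9 * (d + 1) ^ 2 + 2 ^ k := by
      have := A13_lin (3 * (d + 1)) k
      nlinarith
    calc r ^ (d + 1) ≤ (8 ^ (k + 1) * r0) ^ (d + 1) := Nat.pow_le_pow_left h4 _
      _ = r0 ^ (d + 1) * 2 ^ (3 * (d + 1) * (k + 1)) := by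
        rw [mul_pow, show (8 : ℕ) = 2 ^ 3 by norm_num, ← pow_mul, ← pow_mul]
        rw [show 3 * ((k + 1) * (d + 1)) = 3 * (d + 1) * (k + 1) by ring, mul_comm]
      _ ≤ r0 ^ (d + 1) * 2 ^ (9 * (d + 1) ^ 2 + 2 ^ k) :=
        Nat.mul_le_mul_left _ (Nat.pow_le_pow_right (by norm_num) h6)
      _ = C * 2 ^ (2 ^ k) := by rw [hC, pow_add]; ring
      _ ≤ C * N r := Nat.mul_le_mul_left _ h5
  have hCR : (0 : ℝ) < C := by exact_mod_cast hC0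
  refine tendsto_atTop_mono' atTop ?_
    ((tendsto_natCast_atTop_atTop (R := ℝ)).atTop_div_const hCR)
  filter_upwards [eventually_ge_atTop r0] with r hr
  have hr1' : (0 : ℝ) < r := by exact_mod_cast (lt_of_lt_of_le hr0 hr)
  have h1 : ((r : ℝ)) ^ (d + 1) ≤ C * N r := by exact_mod_cast hmain r hr
  rw [div_le_div_iff₀ hCR (by positivity)]
  calc (r : ℝ) * r ^ d = r ^ (d + 1) := by ring
    _ ≤ C * N r := h1
    _ = N r * C := by ring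

end H260R4
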