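import Mathlib
import Pool.Agent.H260R4.Defs
import Pool.Agent.H260R4.A2

namespace H260R4

open Filter Topology

/-- the tail part of a cluster word -/
private def tl (cs : List (Fin 3)) (y : Bool) : List Lt :=
  cs.flatMap (fun c => cl c ++ [none]) ++ (if y then [none] else [])

private lemma cw_false (cs : List (Fin 3)) (y : Bool) : cw false cs y = tl cs y := by
  simp [cw, tl]

private lemma cw_true (cs : List (Fin 3)) (y : Bool) : cw true cs y = none :: tl cs y := by
  simp [cw, tl]

private lemma tl_cons (c : Fin 3) (cs : List (Fin 3)) (y : Bool) :
    tl (c :: cs) y = cl c ++ (none :: tl cs y) := by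
  simp [tl]

private lemma act_cons (s : Lt) (w : List Lt) (n : ℕ) : act (s :: w) n = act1 s (act w n) := rfl

private lemma nu_cons (c : Fin 3) (cs : List (Fin 3)) : nu (c :: cs) = wt (cl c) + 2 + nu cs := by
  simp [nu]

private lemma wt_cons (s : Lt) (w : List Lt) : wt (s :: w) = wt1 s + wt w := by
  simp [wt]

private lemma act_nil (n : ℕ) : act [] n = n := rfl

private lemma cl0 : cl 0 = [some false] := by simp [cl]
private lemma cl1 : cl 1 = [some true] := by simp [cl]
private lemma cl2 : cl 2 = [some false, some true] := by simp [cl]

private lemma reduce_aux (w : List Lt) : ∃ x cs y, (∀ n, act w n = act (cw x cs y) n) ∧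
    nu cs + (if x then 2 else 0) ≤ wt w + 2 := by
  induction w with
  | nil =>
    refine ⟨false, [], false, fun n => ?_, ?_⟩
    · simp [cw]
    · simp [nu]
  | cons s w ih =>
    obtain ⟨x, cs, y, h, hn⟩ := ih
    have hs : ∀ n, act (s :: w) n = act1 s (act (cw x cs y) n) := fun n => by
      rw [act_cons, h]
    rw [wt_cons]
    rcases s with _ | e
    · -- letter a
      cases x with
      | false =>
        refine ⟨true, cs, y, fun n => ?_, ?_⟩
        · rw [hs, cw_false, cw_true, act_cons]
        · simp [wt1] at hn ⊢; omega
      | true =>
        refine ⟨false, cs, y, fun n => ?_, ?_⟩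
        · rw [hs, cw_false, cw_true, act_cons, act1_invol]
        · simp [wt1] at hn ⊢; omega
    · cases x with
      | true =>
        cases e with
        | false =>
          refine ⟨false, 0 :: cs, y, fun n => ?_, ?_⟩
          · rw [hs, cw_false, cw_true, tl_cons, cl0]; rfl
          · rw [nu_cons, cl0]; simp [wt1, wt] at hn ⊢; omega
        | true =>
          refine ⟨false, 1 :: cs, y, fun n => ?_, ?_⟩
          · rw [hs, cw_false, cw_true, tl_cons, cl1]; rfl
          · rw [nu_cons, cl1]; simp [wt1, wt] at hn ⊢; omega
      | false =>
        rcases cs with _ | ⟨c, cs⟩
        · -- empty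
          have key : ∀ n, act (tl [] y) n = act1 none (act (tl [] (!y)) n) := fun n => by
            cases y with
            | false =>
              have : act (tl [] (!false)) n = act1 none n := by simp [tl, act]
              rw [this, act1_invol]; simp [tl, act]
            | true => simp [tl, act]
          cases e with
          | false =>
            refine ⟨false, [0], !y, fun n => ?_, ?_⟩
            · rw [hs, cw_false, cw_false, tl_cons, cl0, key]; rfl
            · rw [nu_cons, cl0]; simp [wt1, wt, nu] at hn ⊢; try omega
          | true =>
            refine ⟨false, [1], !y, fun n => ?_, ?_⟩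
            · rw [hs, cw_false, cw_false, tl_cons, cl1, key]; rfl
            · rw [nu_cons, cl1]; simp [wt1, wt, nu] at hn ⊢; try omega
        · rw [nu_cons] at hn
          have hc : c = 0 ∨ c = 1 ∨ c = 2 := by fin_cases c <;> simp
          rcases hc with rfl | rfl | rfl
          · rw [cl0] at hn
            cases e with
            | false =>
              refine ⟨true, cs, y, fun n => ?_, ?_⟩
              · rw [hs, cw_false, cw_true, tl_cons, cl0]
                exact act1_invol (some false) _
              · simp [wt1, wt] at hn ⊢; omega
            | true =>
              refine ⟨false, 2 :: cs, y, fun n => ?_, ?_⟩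
              · rw [hs, cw_false, cw_false, tl_cons, tl_cons, cl0, cl2]
                exact (bA_comm _).symm
              · rw [nu_cons, cl2]; simp [wt1, wt] at hn ⊢; omega
          · rw [cl1] at hn
            cases e with
            | false =>
              refine ⟨false, 2 :: cs, y, fun n => ?_, ?_⟩
              · rw [hs, cw_false, cw_false, tl_cons, tl_cons, cl1, cl2]
                rfl
              · rw [nu_cons, cl2]; simp [wt1, wt] at hn ⊢; omega
            | true =>
              refine ⟨true, cs, y, fun n => ?_, ?_⟩
              · rw [hs, cw_false, cw_true, tl_cons, cl1]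
                exact act1_invol (some true) _
              · simp [wt1, wt] at hn ⊢; omega
          · rw [cl2] at hn
            cases e with
            | false =>
              refine ⟨false, 1 :: cs, y, fun n => ?_, ?_⟩
              · rw [hs, cw_false, cw_false, tl_cons, tl_cons, cl1, cl2]
                exact act1_invol (some false) _
              · rw [nu_cons, cl1]; simp [wt1, wt] at hn ⊢; omega
            | true =>
              refine ⟨false, 0 :: cs, y, fun n => ?_, ?_⟩
              · rw [hs, cw_false, cw_false, tl_cons, tl_cons, cl0, cl2]
                change bA true (bA false (bA true (act (none :: tl cs y) n))) =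
                  bA false (act (none :: tl cs y) n)
                rw [bA_comm]
                exact act1_invol (some true) _
              · rw [nu_cons, cl0]; simp [wt1, wt] at hn ⊢; omega

theorem reduce (w : List Lt) : ∃ x cs y, act w = act (cw x cs y) ∧ nu cs ≤ wt w + 2 := by
  obtain ⟨x, cs, y, h, hn⟩ := reduce_aux w
  exact ⟨x, cs, y, funext h, le_trans (Nat.le_add_right _ _) hn⟩

end H260R4
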