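import Mathlib
import Pool.Agent.H260R4.Defs

namespace H260R4

open Filter Topology

/-- total weight of the two sections of a letter -/
def A4_s1 : Lt → ℕ
  | none => 0
  | some false => 3
  | some true => 4

theorem A4_wt_append (u v : List Lt) : wt (u ++ v) = wt u + wt v := by
  unfold wt
  rw [List.map_append, List.sum_append]

theorem A4_sec (w : List Lt) :
    wt (sec false w) + wt (sec true w) = (w.map A4_s1).sum := by
  induction w with
  | nil => rfl
  | cons s w ih =>
    cases s with
    | none =>
      simp only [sec, List.map_cons, List.sum_cons, A4_s1, zero_add]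
      exact ih
    | some e =>
      simp only [sec, List.map_cons, List.sum_cons, A4_wt_append]
      cases e <;> cases par w <;> simp [wt, wt1, A4_s1] at ih ⊢ <;> omega

theorem A4_cs (cs : List (Fin 3)) :
    ((cs.flatMap (fun c => cl c ++ [none])).map A4_s1).sum + sing cs = nu cs := by
  induction cs with
  | nil => rfl
  | cons c cs ih =>
    have h1 : sing (c :: cs) = sing cs + (if c ≠ 2 then 1 else 0) := by
      unfold sing
      rw [List.countP_cons]
      simp
    have h2 : nu (c :: cs) = (wt (cl c) + 2) + nu cs := by
      simp [nu]
    rw [h1, h2, List.flatMap_cons, List.map_append, List.sum_append, ← ih]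
    have h3 : ((cl c ++ [none]).map A4_s1).sum + (if c ≠ 2 then 1 else 0) = wt (cl c) + 2 := by
      fin_cases c <;> simp [cl, wt, wt1, A4_s1]
    omega

theorem sec_weight (x : Bool) (cs : List (Fin 3)) (y : Bool) :
    wt (sec false (cw x cs y)) + wt (sec true (cw x cs y)) + sing cs = nu cs := by
  rw [A4_sec, ← A4_cs cs]
  have h1 : ∀ b : Bool, ((if b then [none] else [] : List Lt).map A4_s1).sum = 0 := by
    intro b
    cases b <;> rfl
  unfold cw
  rw [List.map_append, List.sum_append, List.map_append, List.sum_append, h1, h1]
  omega

end H260R4
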