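import Mathlib
import Pool.Agent.H260R4.Defs

namespace H260R4

open Filter Topology

namespace A5

/-- All lists of length at most `n`. -/
def LL : ℕ → Finset (List (Fin 3))
  | 0 => {[]}
  | n + 1 => insert [] ((Finset.univ ×ˢ LL n).image fun p : Fin 3 × List (Fin 3) => p.1 :: p.2)

theorem mem_LL (n : ℕ) (cs : List (Fin 3)) (h : cs.length ≤ n) : cs ∈ LL n := by
  induction n generalizing cs with
  | zero =>
    rw [List.eq_nil_of_length_eq_zero (Nat.le_zero.1 h)]
    simp [LL]
  | succ n ih =>
    cases cs with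
    | nil => simp [LL]
    | cons c cs =>
      rw [LL, Finset.mem_insert, Finset.mem_image]
      refine Or.inr ⟨(c, cs), ?_, rfl⟩
      rw [Finset.mem_product]
      exact ⟨Finset.mem_univ _, ih cs (by simpa using h)⟩

theorem length_le (cs : List (Fin 3)) : cs.length ≤ nu cs := by
  unfold nu
  induction cs with
  | nil => simp
  | cons c cs ih =>
    rw [List.length_cons, List.map_cons, List.sum_cons]
    omega

theorem sing_cons (c : Fin 3) (cs : List (Fin 3)) :
    sing (c :: cs) = sing cs + if c = 2 then 0 else 1 := by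
  unfold sing
  rw [List.countP_cons]
  by_cases h : c = 2 <;> simp [h]

theorem sum_LL (x : ℝ) (hx : 0 < x) (n : ℕ) :
    ∑ cs ∈ LL n, x ^ sing cs ≤ (n + 1) * (1 + 2 * x) ^ n := by
  induction n with
  | zero => simp [LL, sing]
  | succ n ih =>
    have e : ∑ cs ∈ LL (n + 1), x ^ sing cs = 1 + (1 + 2 * x) * ∑ cs ∈ LL n, x ^ sing cs := by
      rw [LL, Finset.sum_insert (by simp), Finset.sum_image]
      · rw [Finset.sum_product, Fin.sum_univ_three]
        simp only [sing_cons]
        have h0 : ((0 : Fin 3) = 2) = False := by decide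
        have h1 : ((1 : Fin 3) = 2) = False := by decide
        simp only [h0, h1, if_false, if_true, add_zero, pow_succ]
        rw [← Finset.sum_mul]
        simp only [sing, List.countP_nil, pow_zero]
        ring
      · rintro ⟨a, b⟩ _ ⟨c, d⟩ _ h
        have h' : a :: b = c :: d := h
        rw [List.cons.injEq] at h'
        exact Prod.ext h'.1 h'.2
    rw [e]
    have h1 : (1 : ℝ) ≤ (1 + 2 * x) ^ (n + 1) := one_le_pow₀ (by linarith)
    calc 1 + (1 + 2 * x) * ∑ cs ∈ LL n, x ^ sing cs
        ≤ (1 + 2 * x) ^ (n + 1) + (1 + 2 * x) * ((n + 1) * (1 + 2 * x) ^ n) :=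
          add_le_add h1 (mul_le_mul_of_nonneg_left ih (by linarith))
      _ = _ := by push_cast; ring

end A5

theorem CS_finite (n K : ℕ) : (CS n K).Finite := by
  refine (A5.LL n).finite_toSet.subset fun cs hcs => ?_
  exact A5.mem_LL n cs ((A5.length_le cs).trans hcs.1)

theorem CS_card (n K : ℕ) (x : ℝ) (hx : 0 < x) (hx1 : x ≤ 1) :
    ((CS n K).ncard : ℝ) ≤ (n + 1) * (1 + 2 * x) ^ n / x ^ K := by
  rw [le_div_iff₀ (by positivity), Set.ncard_eq_toFinset_card _ (CS_finite n K)]
  set A := (CS_finite n K).toFinset with hA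
  have hmem : ∀ cs ∈ A, cs ∈ CS n K := fun cs h => (CS_finite n K).mem_toFinset.1 h
  calc (A.card : ℝ) * x ^ K = ∑ cs ∈ A, x ^ K := by rw [Finset.sum_const, nsmul_eq_mul]
    _ ≤ ∑ cs ∈ A, x ^ sing cs :=
        Finset.sum_le_sum fun cs h => pow_le_pow_of_le_one hx.le hx1 (hmem cs h).2
    _ ≤ ∑ cs ∈ A5.LL n, x ^ sing cs := by
        refine Finset.sum_le_sum_of_subset_of_nonneg (fun cs h => ?_) fun _ _ _ => by positivity
        exact A5.mem_LL n cs ((A5.length_le cs).trans (hmem cs h).1)
    _ ≤ _ := A5.sum_LL x hx n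

end H260R4
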