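import Mathlib
import Pool.Agent.H260R4.Defs
import Pool.Agent.H260R4.A2
import Pool.Agent.H260R4.A3
import Pool.Agent.H260R4.A4
import Pool.Agent.H260R4.A5
import Pool.Agent.H260R4.A6

namespace H260R4

open Filter Topology

theorem BW_rec (n K : ℕ) : (BW n).ncard ≤ 4 * (CS (n + 2) K).ncard +
    2 * ∑ i ∈ Finset.range (n + 2 - K), (BW i).ncard * (BW (n + 1 - K - i)).ncard := by
  classical
  choose e m hem using unp_surj
  set G : Bool × ((ℕ → ℕ) × (ℕ → ℕ)) → (ℕ → ℕ) := fun q k =>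
    unp (xor (e k) q.1) (if e k then q.2.2 (m k) else q.2.1 (m k)) with hG
  set F : (Bool × Bool) × List (Fin 3) → (ℕ → ℕ) := fun q => act (cw q.1.1 q.2 q.1.2) with hF
  set P : Set (ℕ → ℕ) := F '' (Set.univ ×ˢ CS (n + 2) K) with hP
  set Q : ℕ → Set (ℕ → ℕ) := fun i => G '' (Set.univ ×ˢ (BW i ×ˢ BW (n + 1 - K - i))) with hQ
  have hPf : (Set.univ ×ˢ CS (n + 2) K : Set ((Bool × Bool) × List (Fin 3))).Finite :=
    Set.finite_univ.prod (CS_finite _ _)
  have hQf : ∀ i, (Set.univ ×ˢ (BW i ×ˢ BW (n + 1 - K - i)) :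
      Set (Bool × ((ℕ → ℕ) × (ℕ → ℕ)))).Finite := fun i =>
    Set.finite_univ.prod ((BW_finite _).prod (BW_finite _))
  have hsub : BW n ⊆ P ∪ ⋃ i ∈ Finset.range (n + 2 - K), Q i := by
    rintro f ⟨w, hw, rfl⟩
    obtain ⟨x, cs, y, h1, h2⟩ := reduce w
    have h3 := sec_weight x cs y
    rcases le_or_gt (sing cs) K with h | h
    · left
      have h5 : nu cs ≤ n + 2 := by omega
      exact ⟨((x, y), cs), ⟨Set.mem_univ _, h5, h⟩, h1.symm⟩
    · right
      rw [Set.mem_iUnion₂]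
      refine ⟨wt (sec false (cw x cs y)), Finset.mem_range.2 (by omega), ?_⟩
      refine ⟨(par (cw x cs y), (act (sec false (cw x cs y)), act (sec true (cw x cs y)))),
        ⟨Set.mem_univ _, ⟨_, le_rfl, rfl⟩, ⟨_, by omega, rfl⟩⟩, ?_⟩
      rw [h1]
      funext k
      have h4 := act_sec (cw x cs y) (e k) (m k)
      rw [hem k] at h4
      rw [h4]
      simp only [hG]
      cases e k <;> simp
  have hfin : (P ∪ ⋃ i ∈ Finset.range (n + 2 - K), Q i).Finite := by
    refine (hPf.image F).union ?_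
    exact Set.Finite.biUnion (Finset.finite_toSet _) fun i _ => (hQf i).image G
  have c1 : P.ncard ≤ 4 * (CS (n + 2) K).ncard := by
    refine (Set.ncard_image_le hPf).trans ?_
    rw [Set.ncard_prod, Set.ncard_univ]
    simp
  have c2 : ∀ i, (Q i).ncard ≤ 2 * ((BW i).ncard * (BW (n + 1 - K - i)).ncard) := by
    intro i
    refine (Set.ncard_image_le (hQf i)).trans ?_
    rw [Set.ncard_prod, Set.ncard_prod, Set.ncard_univ]
    simp
  calc (BW n).ncard ≤ (P ∪ ⋃ i ∈ Finset.range (n + 2 - K), Q i).ncard :=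
        Set.ncard_le_ncard hsub hfin
    _ ≤ P.ncard + (⋃ i ∈ Finset.range (n + 2 - K), Q i).ncard := Set.ncard_union_le _ _
    _ ≤ 4 * (CS (n + 2) K).ncard + ∑ i ∈ Finset.range (n + 2 - K), (Q i).ncard :=
        add_le_add c1 (Finset.set_ncard_biUnion_le _ _)
    _ ≤ _ := by
        rw [Finset.mul_sum]
        exact Nat.add_le_add_left (Finset.sum_le_sum fun i _ => c2 i) _

end H260R4
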