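import Mathlib
import Pool.Agent.H260R4.Defs

namespace H260R4

open Filter Topology

/-- one improvement step -/
theorem A8_step (N : ℕ → ℕ) (F : ℕ → ℕ → ℕ)
    (hF : ∀ n K, ∀ x : ℝ, 0 < x → x ≤ 1 → (F n K : ℝ) ≤ (n + 1) * (1 + 2 * x) ^ n / x ^ K)
    (hrec : ∀ n K, N n ≤ 4 * F (n + 2) K +
      2 * ∑ i ∈ Finset.range (n + 2 - K), N i * N (n + 1 - K - i))
    (s x c' C' : ℝ) (p : ℕ) (hs : 1 < s) (hx0 : 0 < x) (hx1 : x ≤ 1) (hxs : 1 + 2 * x ≤ s)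
    (hp : 2 ≤ p) (hxp : x⁻¹ ≤ s ^ p) (hc' : 1 < c') (hC' : 0 < C')
    (hN : ∀ n, (N n : ℝ) ≤ C' * c' ^ n) (n : ℕ) :
    (N n : ℝ) ≤ (4 * s ^ 2 + 2 * C' ^ 2 * c' ^ 2) * ((n + 3) *
      (max (s ^ 2) (c' ^ (1 - 1 / (p : ℝ)))) ^ n) := by
  obtain ⟨K, hK⟩ : ∃ K, K = n / p := ⟨_, rfl⟩
  obtain ⟨R, hR⟩ : ∃ R, R = max (s ^ 2) (c' ^ (1 - 1 / (p : ℝ))) := ⟨_, rfl⟩
  rw [← hR]
  have hpR : (2 : ℝ) ≤ p := by exact_mod_cast hp
  have hs0 : 0 < s := by linarith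
  have hc0 : 0 < c' := by linarith
  have hR1 : s ^ 2 ≤ R := by rw [hR]; exact le_max_left _ _
  have hR2 : c' ^ (1 - 1 / (p : ℝ)) ≤ R := by rw [hR]; exact le_max_right _ _
  have hR0 : 0 ≤ R := le_trans (by positivity) hR1
  have hKn : K ≤ n := by rw [hK]; exact Nat.div_le_self n p
  have hpK : p * K ≤ n := by rw [hK]; exact Nat.mul_div_le n p
  have hpK2 : n < p * (K + 1) := by
    rw [hK]; exact Nat.lt_mul_div_succ n (by omega)
  -- first term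
  have h1 : (F (n + 2) K : ℝ) ≤ (n + 3) * (s ^ 2 * R ^ n) := by
    have h2 := hF (n + 2) K x hx0 hx1
    have h3 : (1 + 2 * x) ^ (n + 2) ≤ s ^ (n + 2) := pow_le_pow_left₀ (by positivity) hxs _
    have h4 : (x ^ K)⁻¹ ≤ s ^ n := by
      rw [← inv_pow]
      calc (x⁻¹) ^ K ≤ (s ^ p) ^ K := pow_le_pow_left₀ (by positivity) hxp K
        _ = s ^ (p * K) := by rw [pow_mul]
        _ ≤ s ^ n := pow_le_pow_right₀ hs.le hpK
    calc (F (n + 2) K : ℝ) ≤ (((n + 2 : ℕ) : ℝ) + 1) * (1 + 2 * x) ^ (n + 2) / x ^ K := h2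
      _ = (n + 3) * ((1 + 2 * x) ^ (n + 2) * (x ^ K)⁻¹) := by push_cast; ring
      _ ≤ (n + 3) * (s ^ (n + 2) * s ^ n) := by
        refine mul_le_mul_of_nonneg_left ?_ (by positivity)
        exact mul_le_mul h3 h4 (by positivity) (by positivity)
      _ = (n + 3) * (s ^ 2 * (s ^ 2) ^ n) := by ring
      _ ≤ (n + 3) * (s ^ 2 * R ^ n) := by
        refine mul_le_mul_of_nonneg_left ?_ (by positivity)
        exact mul_le_mul_of_nonneg_left (pow_le_pow_left₀ (by positivity) hR1 n) (by positivity)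
  -- second term
  have hexp : c' ^ (n + 1 - K) ≤ c' ^ 2 * R ^ n := by
    have h2 : ((n + 1 - K : ℕ) : ℝ) ≤ 2 + (1 - 1 / (p : ℝ)) * n := by
      rw [Nat.cast_sub (by omega)]
      have h3 : (n : ℝ) ≤ p * (K + 1) := by exact_mod_cast hpK2.le
      have h4 : (n : ℝ) / p ≤ K + 1 := by
        rw [div_le_iff₀ (by linarith)]
        linarith
      push_cast
      have h5 : (1 - 1 / (p : ℝ)) * n = n - n / p := by ring
      rw [h5]
      linarith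
    calc c' ^ (n + 1 - K) = c' ^ (((n + 1 - K : ℕ) : ℝ)) := by rw [Real.rpow_natCast]
      _ ≤ c' ^ (2 + (1 - 1 / (p : ℝ)) * n) := Real.rpow_le_rpow_of_exponent_le hc'.le h2
      _ = c' ^ 2 * (c' ^ (1 - 1 / (p : ℝ))) ^ n := by
        rw [Real.rpow_add hc0, Real.rpow_mul hc0.le, Real.rpow_natCast, Real.rpow_two]
      _ ≤ c' ^ 2 * R ^ n := by
        refine mul_le_mul_of_nonneg_left ?_ (by positivity)
        exact pow_le_pow_left₀ (by positivity) hR2 n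
  have h2 : ∀ i ∈ Finset.range (n + 2 - K), (N i : ℝ) * N (n + 1 - K - i) ≤
      C' ^ 2 * (c' ^ 2 * R ^ n) := by
    intro i hi
    rw [Finset.mem_range] at hi
    calc (N i : ℝ) * N (n + 1 - K - i) ≤ (C' * c' ^ i) * (C' * c' ^ (n + 1 - K - i)) :=
          mul_le_mul (hN _) (hN _) (by positivity) (by positivity)
      _ = C' ^ 2 * c' ^ (i + (n + 1 - K - i)) := by rw [pow_add]; ring
      _ = C' ^ 2 * c' ^ (n + 1 - K) := by rw [show i + (n + 1 - K - i) = n + 1 - K by omega]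
      _ ≤ C' ^ 2 * (c' ^ 2 * R ^ n) := mul_le_mul_of_nonneg_left hexp (by positivity)
  have h3 : ∑ i ∈ Finset.range (n + 2 - K), (N i : ℝ) * N (n + 1 - K - i) ≤
      (n + 3) * (C' ^ 2 * (c' ^ 2 * R ^ n)) := by
    refine (Finset.sum_le_sum h2).trans ?_
    rw [Finset.sum_const, Finset.card_range, nsmul_eq_mul]
    refine mul_le_mul_of_nonneg_right ?_ (by positivity)
    have : ((n + 2 - K : ℕ) : ℝ) ≤ ((n + 3 : ℕ) : ℝ) := by exact_mod_cast (by omega)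
    simpa using this
  have h4 : (N n : ℝ) ≤ 4 * F (n + 2) K +
      2 * ∑ i ∈ Finset.range (n + 2 - K), (N i : ℝ) * N (n + 1 - K - i) := by
    exact_mod_cast hrec n K
  calc (N n : ℝ) ≤ 4 * F (n + 2) K +
      2 * ∑ i ∈ Finset.range (n + 2 - K), (N i : ℝ) * N (n + 1 - K - i) := h4
    _ ≤ 4 * ((n + 3) * (s ^ 2 * R ^ n)) + 2 * ((n + 3) * (C' ^ 2 * (c' ^ 2 * R ^ n))) := by
      linarith
    _ = (4 * s ^ 2 + 2 * C' ^ 2 * c' ^ 2) * ((n + 3) * R ^ n) := by ring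

/-- linear factors are absorbed -/
theorem A8_lin (R c : ℝ) (hR : 1 ≤ R) (hRc : R < c) (n : ℕ) :
    ((n : ℝ) + 3) * R ^ n ≤ (3 + 1 / (c / R - 1)) * c ^ n := by
  have hR0 : 0 < R := by linarith
  have hq : 1 < c / R := by rwa [one_lt_div hR0]
  have h1 : 1 + (n : ℝ) * (c / R - 1) ≤ (c / R) ^ n := by
    have := one_add_mul_le_pow (show (-2 : ℝ) ≤ c / R - 1 by linarith) n
    simpa using this
  have h2 : (n : ℝ) ≤ (c / R) ^ n * (1 / (c / R - 1)) := by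
    rw [mul_one_div, le_div_iff₀ (by linarith)]
    linarith
  have h3 : (1 : ℝ) ≤ (c / R) ^ n := one_le_pow₀ hq.le
  have h4 : (n : ℝ) + 3 ≤ (3 + 1 / (c / R - 1)) * (c / R) ^ n := by nlinarith
  calc ((n : ℝ) + 3) * R ^ n ≤ ((3 + 1 / (c / R - 1)) * (c / R) ^ n) * R ^ n :=
        mul_le_mul_of_nonneg_right h4 (by positivity)
    _ = (3 + 1 / (c / R - 1)) * c ^ n := by
      rw [mul_assoc, ← mul_pow, div_mul_cancel₀ _ hR0.ne']

theorem subexp_of_rec (N : ℕ → ℕ) (F : ℕ → ℕ → ℕ) (h0 : ∀ n, N n ≤ 4 ^ n)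
    (hF : ∀ n K, ∀ x : ℝ, 0 < x → x ≤ 1 → (F n K : ℝ) ≤ (n + 1) * (1 + 2 * x) ^ n / x ^ K)
    (hrec : ∀ n K, N n ≤ 4 * F (n + 2) K +
      2 * ∑ i ∈ Finset.range (n + 2 - K), N i * N (n + 1 - K - i))
    (c : ℝ) (hc : 1 < c) : ∃ C : ℝ, 0 < C ∧ ∀ n, (N n : ℝ) ≤ C * c ^ n := by
  obtain ⟨SS, hSS⟩ : ∃ SS : Set ℝ, SS = {c | 1 < c ∧ ∃ C : ℝ, 0 < C ∧ ∀ n, (N n : ℝ) ≤ C * c ^ n} :=
    ⟨_, rfl⟩
  have h4 : (4 : ℝ) ∈ SS := by
    rw [hSS]
    refine ⟨by norm_num, 1, one_pos, fun n => ?_⟩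
    rw [one_mul]
    exact_mod_cast h0 n
  have hbdd : BddBelow SS := ⟨1, by rintro y hy; rw [hSS] at hy; exact hy.1.le⟩
  by_contra hcon
  -- `c` is a lower bound
  have hcl : c ≤ sInf SS := by
    refine le_csInf ⟨4, h4⟩ ?_
    intro y hy
    by_contra hlt
    push Not at hlt
    rw [hSS] at hy
    obtain ⟨hy1, C, hC, hy2⟩ := hy
    apply hcon
    refine ⟨C, hC, fun n => (hy2 n).trans ?_⟩
    exact mul_le_mul_of_nonneg_left (pow_le_pow_left₀ (by linarith) hlt.le n) hC.le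
  obtain ⟨l, hl⟩ : ∃ l, l = sInf SS := ⟨_, rfl⟩
  rw [← hl] at hcl
  have hl1 : 1 < l := lt_of_lt_of_le hc hcl
  obtain ⟨s, hsd⟩ : ∃ s, s = Real.sqrt ((1 + l) / 2) := ⟨_, rfl⟩
  have hs2 : s ^ 2 = (1 + l) / 2 := by rw [hsd]; exact Real.sq_sqrt (by linarith)
  have hs0 : 0 ≤ s := by rw [hsd]; exact Real.sqrt_nonneg _
  have hs : 1 < s := by nlinarith
  have hsl : s ^ 2 < l := by rw [hs2]; linarith
  obtain ⟨x, hxd⟩ : ∃ x, x = min 1 ((s - 1) / 2) := ⟨_, rfl⟩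
  have hx0 : 0 < x := by rw [hxd]; exact lt_min one_pos (by linarith)
  have hx1 : x ≤ 1 := by rw [hxd]; exact min_le_left _ _
  have hxs : 1 + 2 * x ≤ s := by
    have : x ≤ (s - 1) / 2 := by rw [hxd]; exact min_le_right _ _
    linarith
  obtain ⟨p0, hp0⟩ := pow_unbounded_of_one_lt (x⁻¹) hs
  obtain ⟨p, hp, hpx⟩ : ∃ p : ℕ, 2 ≤ p ∧ x⁻¹ ≤ s ^ p :=
    ⟨p0 + 2, by omega, hp0.le.trans (pow_le_pow_right₀ hs.le (by omega))⟩
  have hpR : (2 : ℝ) ≤ p := by exact_mod_cast hp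
  -- choice of `c'`
  obtain ⟨θ, hθ⟩ : ∃ θ : ℝ, θ = 1 - 1 / (p : ℝ) := ⟨_, rfl⟩
  have hθ0 : 0 < θ := by
    rw [hθ]
    have : 1 / (p : ℝ) < 1 := by rw [div_lt_one (by linarith)]; linarith
    linarith
  have hθ1 : θ < 1 := by
    rw [hθ]
    have : 0 < 1 / (p : ℝ) := by positivity
    linarith
  have hll : l < l ^ (1 / θ) := by
    have h5 : 1 < 1 / θ := by rw [one_lt_div hθ0]; exact hθ1
    calc l = l ^ (1 : ℝ) := (Real.rpow_one l).symm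
      _ < l ^ (1 / θ) := Real.rpow_lt_rpow_of_exponent_lt hl1 h5
  obtain ⟨c', hc'S, hc'l⟩ := exists_lt_of_csInf_lt ⟨4, h4⟩ (show sInf SS < l ^ (1 / θ) by
    rw [← hl]; exact hll)
  have hc'S' := hc'S
  rw [hSS] at hc'S'
  obtain ⟨hc'1, C', hC', hN⟩ := hc'S'
  have hc'θ : c' ^ θ < l := by
    have h5 := Real.rpow_lt_rpow (by linarith) hc'l hθ0
    rw [← Real.rpow_mul (by linarith), one_div, inv_mul_cancel₀ hθ0.ne', Real.rpow_one] at h5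
    exact h5
  have hstep := A8_step N F hF hrec s x c' C' p hs hx0 hx1 hxs hp hpx hc'1 hC' hN
  rw [← hθ] at hstep
  obtain ⟨R, hR⟩ : ∃ R, R = max (s ^ 2) (c' ^ θ) := ⟨_, rfl⟩
  rw [← hR] at hstep
  have hRl : R < l := by rw [hR]; exact max_lt hsl hc'θ
  have hR1 : 1 ≤ R := by
    rw [hR]
    refine le_trans ?_ (le_max_left _ _)
    nlinarith
  obtain ⟨c3, hc31, hc32⟩ := exists_between hRl
  have hmem : c3 ∈ SS := by
    rw [hSS]
    refine ⟨by linarith, (4 * s ^ 2 + 2 * C' ^ 2 * c' ^ 2) * (3 + 1 / (c3 / R - 1)), ?_, ?_⟩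
    · have h5 : 0 < c3 / R - 1 := by
        have : 1 < c3 / R := by rwa [one_lt_div (by linarith)]
        linarith
      have h6 : 0 < 1 / (c3 / R - 1) := by positivity
      have h7 : 0 < 4 * s ^ 2 + 2 * C' ^ 2 * c' ^ 2 := by positivity
      positivity
    · intro n
      refine (hstep n).trans ?_
      rw [mul_assoc (4 * s ^ 2 + 2 * C' ^ 2 * c' ^ 2)]
      exact mul_le_mul_of_nonneg_left (A8_lin R c3 hR1 hc31 n) (by positivity)
  have := csInf_le hbdd hmem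
  rw [← hl] at this
  linarith

end H260R4
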