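import Mathlib
import Pool.Agent.H260R4.Defs
import Pool.Agent.H260R4.A1

namespace H260R4

open Filter Topology

theorem B1_mu (b : Bool) : mu b = [b, !b] := by
  cases b <;> rfl

theorem B1_step (a : Bool) (N : ℕ) :
    muW ((List.range N).map fun j => xor a (tm j)) =
      (List.range (2 * N)).map fun j => xor a (tm j) := by
  induction N with
  | zero => rfl
  | succ N ih =>
    have h2 : 2 * (N + 1) = 2 * N + 1 + 1 := by ring
    rw [h2, List.range_succ, List.range_succ, List.range_succ, List.map_append, List.map_append,
      List.map_append, ← ih]
    unfold muW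
    rw [List.flatMap_append, List.append_assoc]
    congr 1
    simp only [List.map_cons, List.map_nil, List.flatMap_cons, List.flatMap_nil, B1_mu,
      tm_two_mul, tm_two_mul_add, List.append_nil, List.cons_append, List.nil_append]
    cases a <;> cases tm N <;> rfl

theorem B1_iter (n : ℕ) (a : Bool) :
    muW^[n] [a] = (List.range (2 ^ n)).map fun j => xor a (tm j) := by
  induction n with
  | zero =>
    have h0 : tm 0 = false := by
      rw [tm]
    simp [h0]
  | succ n ih =>
    rw [Function.iterate_succ', Function.comp_apply, ih, B1_step, pow_succ, mul_comm]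

theorem muW_iter (n : ℕ) (a : Bool) :
    muW^[n] [a] = List.ofFn (fun j : Fin (2 ^ n) => xor a (tm j)) := by
  rw [B1_iter]
  refine List.ext_getElem (by simp) ?_
  intro i h1 h2
  simp

end H260R4
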