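import Mathlib
import Pool.Agent.H260R4.Defs
import Pool.Agent.H260R4.A1
import Pool.Agent.H260R4.B1

namespace H260R4

open Filter Topology

theorem window {x : ℤ → Bool} (hx : x ∈ morseShift) (K : ℕ) :
    ∃ i : ℕ, K + 1 ≤ i ∧ ∀ j : ℤ, |j| ≤ K → x j = tm (i + j).toNat := by
  obtain ⟨n, -, a, h⟩ := hx (-(K : ℤ)) (2 * K + 1)
  rw [muW_iter] at h
  obtain ⟨s, t, hst⟩ := h
  set l : List Bool := List.ofFn fun j : Fin (2 * K + 1) => x (-(K : ℤ) + (j : ℕ)) with hl
  have hlen : s.length + (2 * K + 1) + t.length = 2 ^ n := by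
    have h1 := congrArg List.length hst
    simp only [List.length_append, List.length_ofFn, hl] at h1
    exact h1
  have hval : ∀ j : ℕ, j < 2 * K + 1 → x (-(K : ℤ) + (j : ℕ)) = xor a (tm (s.length + j)) := by
    intro j hj
    have h1 : (s ++ l ++ t)[s.length + j]? = some (x (-(K : ℤ) + (j : ℕ))) := by
      rw [List.append_assoc, List.getElem?_append_right (by omega), Nat.add_sub_cancel_left,
        List.getElem?_append_left (by rw [hl, List.length_ofFn]; exact hj), hl,
        List.getElem?_ofFn]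
      simp only [hj, dite_true]
    have h2 : s.length + j < 2 ^ n := by omega
    rw [hst, List.getElem?_ofFn] at h1
    simp only [h2, dite_true, Option.some.injEq] at h1
    exact h1.symm
  obtain ⟨c, hc1, hc2⟩ : ∃ c : ℕ, K + 1 ≤ c ∧ tm c = a := by
    by_cases hK : tm (K + 1) = a
    · exact ⟨2 * (K + 1), by omega, by rw [tm_two_mul, hK]⟩
    · refine ⟨2 * (K + 1) + 1, by omega, ?_⟩
      rw [tm_two_mul_add]
      cases h1 : tm (K + 1) <;> cases a <;> simp_all
  refine ⟨c * 2 ^ n + s.length + K, ?_, ?_⟩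
  · have h1 : c ≤ c * 2 ^ n := Nat.le_mul_of_pos_right _ (by positivity)
    omega
  · intro j hj
    rw [abs_le] at hj
    obtain ⟨m, hm⟩ : ∃ m : ℕ, (m : ℤ) = j + K := ⟨(j + K).toNat, by omega⟩
    have hm2 : m < 2 * K + 1 := by omega
    have h1 := hval m hm2
    have h2 : (-(K : ℤ) + (m : ℕ)) = j := by omega
    rw [h2] at h1
    have h3 : (((c * 2 ^ n + s.length + K : ℕ) : ℤ) + j).toNat = c * 2 ^ n + (s.length + m) := by
      have h4 : ((c * 2 ^ n + s.length + K : ℕ) : ℤ) + j =
          ((c * 2 ^ n + (s.length + m) : ℕ) : ℤ) := by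
        rw [Nat.add_assoc, Nat.cast_add, Nat.cast_add (c * 2 ^ n), Nat.cast_add s.length K,
          Nat.cast_add s.length m, hm]
        ring
      rw [h4, Int.toNat_natCast]
    rw [h3, tm_block n c _ (by omega), hc2]
    exact h1

end H260R4
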