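import Mathlib
import Pool.Agent.H260R4.Defs
import Pool.Agent.H260R4.A1
import Pool.Agent.H260R4.B1

namespace H260R4

open Filter Topology

theorem B3_tm5 : tm 5 = false := by
  have h0 : tm 0 = false := by unfold tm; rfl
  have h1 : tm 1 = true := by rw [show 1 = 2 * 0 + 1 by norm_num, tm_two_mul_add, h0]; rfl
  have h2 : tm 2 = true := by rw [show 2 = 2 * 1 by norm_num, tm_two_mul, h1]
  rw [show 5 = 2 * 2 + 1 by norm_num, tm_two_mul_add, h2]
  rfl

theorem B3_tm6 : tm 6 = false := by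
  have h0 : tm 0 = false := by unfold tm; rfl
  have h1 : tm 1 = true := by rw [show 1 = 2 * 0 + 1 by norm_num, tm_two_mul_add, h0]; rfl
  have h3 : tm 3 = false := by
    rw [show 3 = 2 * 1 + 1 by norm_num, tm_two_mul_add, h1]; rfl
  rw [show 6 = 2 * 3 by norm_num, tm_two_mul, h3]

theorem B3_key (M : ℕ) (t : ℤ) (h1 : -(4 ^ M : ℕ) ≤ t) (h2 : t < (4 ^ M : ℕ)) :
    zz t = tm ((6 * (4 ^ M : ℕ) + t : ℤ).toNat) := by
  have e4 : 4 ^ M = 2 ^ (2 * M) := by rw [pow_mul]; norm_num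
  unfold zz
  by_cases h : 0 ≤ t
  · obtain ⟨o, rfl⟩ := Int.eq_ofNat_of_zero_le h
    have ho : o < 4 ^ M := by exact_mod_cast h2
    rw [if_pos h]
    have e1 : (6 * ((4 ^ M : ℕ) : ℤ) + (o : ℤ)).toNat = 6 * 2 ^ (2 * M) + o := by
      rw [← e4]; omega
    rw [e1, tm_block (2 * M) 6 o (by rw [← e4]; exact ho), B3_tm6]
    simp
  · rw [if_neg h]
    obtain ⟨k, hk⟩ : ∃ k : ℕ, t = -1 - (k : ℤ) := ⟨(-1 - t).toNat, by omega⟩
    subst hk
    have hk : k < 4 ^ M := by
      have : (k : ℤ) < (4 ^ M : ℕ) := by omega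
      exact_mod_cast this
    have e1 : (-(-1 - (k : ℤ)) - 1).toNat = k := by omega
    have e2 : (6 * ((4 ^ M : ℕ) : ℤ) + (-1 - (k : ℤ))).toNat = 5 * 2 ^ (2 * M) + (4 ^ M - 1 - k) := by
      rw [← e4]; omega
    rw [e1, e2, tm_block (2 * M) 5 (4 ^ M - 1 - k) (by rw [← e4]; omega), B3_tm5, tm_rev M k hk]
    simp

theorem B3_infix (p k L : ℕ) (h : p + k ≤ L) :
    (List.ofFn fun j : Fin k => tm (p + j)) <:+: List.ofFn fun j : Fin L => tm j := by
  have e : (List.ofFn fun j : Fin k => tm (p + j)) =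
      ((List.ofFn fun j : Fin L => tm j).drop p).take k := by
    apply List.ext_getElem
    · rw [List.length_take, List.length_drop, List.length_ofFn, List.length_ofFn]; omega
    · intro j h1 h2
      rw [List.getElem_ofFn, List.getElem_take, List.getElem_drop, List.getElem_ofFn]
  rw [e]
  exact (List.take_prefix _ _).isInfix.trans (List.drop_suffix _ _).isInfix

theorem zz_mem (m : ℤ) : (fun j : ℤ => zz (j + m)) ∈ morseShift := by
  intro i k
  obtain ⟨M, hM⟩ : ∃ M : ℕ, M = (i + m).natAbs + k := ⟨_, rfl⟩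
  have hlt : M < 4 ^ M := Nat.lt_pow_self (by norm_num)
  refine ⟨2 * M + 3, by omega, false, ?_⟩
  rw [muW_iter]
  have e4 : 4 ^ M = 2 ^ (2 * M) := by rw [pow_mul]; norm_num
  have e5 : 2 ^ (2 * M + 3) = 8 * 4 ^ M := by rw [pow_add, e4]; ring
  obtain ⟨N, hN⟩ : ∃ N : ℕ, N = 4 ^ M := ⟨_, rfl⟩
  have hkey : ∀ j : Fin k, zz (i + (j : ℕ) + m) = tm ((6 * (N : ℤ) + (i + m)).toNat + j) := by
    intro j
    have hj := j.2
    rw [B3_key M (i + (j : ℕ) + m) (by rw [← hN]; omega) (by rw [← hN]; omega), ← hN]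
    congr 1
    omega
  have h1 : (List.ofFn fun j : Fin k => (fun j : ℤ => zz (j + m)) (i + (j : ℕ))) =
      List.ofFn fun j : Fin k => tm ((6 * (N : ℤ) + (i + m)).toNat + j) := by
    congr 1
    funext j
    exact hkey j
  rw [h1]
  have h2 : (fun j : Fin (2 ^ (2 * M + 3)) => xor false (tm j)) =
      fun j : Fin (2 ^ (2 * M + 3)) => tm j := by
    funext j; simp
  rw [h2]
  apply B3_infix
  rw [e5, ← hN]
  omega

end H260R4
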