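import Mathlib
import Pool.Agent.H260R4.Defs
import Pool.Agent.H260R4.A1

namespace H260R4

open Filter Topology

theorem act1_kap (s : Lt) (n : ℕ) (hn : 1 ≤ n) :
    (act1 s n : ℤ) = n + kap s (fun j : ℤ => tm (n + j).toNat) := by
  obtain ⟨x, hx⟩ : ∃ x : ℤ → Bool, x = fun j : ℤ => tm (n + j).toNat := ⟨_, rfl⟩
  rw [← hx]
  have e1 : ((n : ℤ) + (1 - 1)).toNat = n := by omega
  have e2 : ((n : ℤ) + 1).toNat = n + 1 := by omega
  have e3 : ((n : ℤ) + (1 + 2 - 1)).toNat = n + 2 := by omega
  have e4 : ((n : ℤ) + (1 + 2)).toNat = n + 3 := by omega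
  have e5 : ((n : ℤ) + (0 - 1)).toNat = n - 1 := by omega
  have e6 : ((n : ℤ) + 0).toNat = n := by omega
  have h1 : labZ x 1 = lab (n + 1) := by
    rw [hx]
    show (tm ((n : ℤ) + (1 - 1)).toNat == tm ((n : ℤ) + 1).toNat) = lab (n + 1)
    rw [e1, e2]
    rfl
  have h3 : labZ x (1 + 2) = lab (n + 3) := by
    rw [hx]
    show (tm ((n : ℤ) + (1 + 2 - 1)).toNat == tm ((n : ℤ) + (1 + 2)).toNat) = lab (n + 3)
    rw [e3, e4]
    rfl
  have h0 : labZ x 0 = lab n := by
    rw [hx]
    show (tm ((n : ℤ) + (0 - 1)).toNat == tm ((n : ℤ) + 0).toNat) = lab n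
    rw [e5, e6]
    rfl
  have hev : evZ x 1 = (lab (n + 1) || lab (n + 3)) := by
    rw [evZ, h1, h3]
  rcases Nat.even_or_odd' n with ⟨q, hq | hq⟩
  · have l1 : lab (n + 1) = false := lab_odd _ (by omega)
    have l3 : lab (n + 3) = false := lab_odd _ (by omega)
    rw [l1, l3] at hev
    have hev' : evZ x 1 = false := hev
    cases s with
    | none =>
      show (aA n : ℤ) = n + (if evZ x 1 then -1 else 1)
      rw [hev', aA, if_pos (by omega)]
      simp
    | some e =>
      show (bA e n : ℤ) = n + (if evZ x 1 then (if labZ x 1 = e then 1 else 0)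
        else (if labZ x 0 = e then -1 else 0))
      rw [hev', h0, bA, if_neg (by omega), if_pos (by omega)]
      by_cases hl : lab n = e
      · simp only [hl, if_true]
        simp
        omega
      · simp only [hl, if_false]
        simp
  · have h2 : (lab (n + 1) || lab (n + 3)) = true := by
      have l1 : lab (n + 1) = !(lab (q + 1)) := by
        rw [← lab_two_mul (q + 1) (by omega)]
        congr 1
        omega
      have l3 : lab (n + 3) = !(lab (q + 2)) := by
        rw [← lab_two_mul (q + 2) (by omega)]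
        congr 1
        omega
      rw [l1, l3]
      rcases Nat.even_or_odd' q with ⟨r, hr | hr⟩
      · rw [lab_odd (q + 1) (by omega)]
        rfl
      · rw [lab_odd (q + 2) (by omega)]
        simp
    rw [h2] at hev
    cases s with
    | none =>
      show (aA n : ℤ) = n + (if evZ x 1 then -1 else 1)
      rw [hev, aA, if_neg (by omega)]
      simp
      omega
    | some e =>
      show (bA e n : ℤ) = n + (if evZ x 1 then (if labZ x 1 = e then 1 else 0)
        else (if labZ x 0 = e then -1 else 0))
      rw [hev, h1, bA, if_neg (by omega), if_neg (by omega)]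
      by_cases hl : lab (n + 1) = e
      · simp only [hl, if_true]
        simp
      · simp only [hl, if_false]
        simp

end H260R4
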