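import Mathlib
import Pool.Agent.H260R4.Defs
import Pool.Agent.H260R4.B4

namespace H260R4

open Filter Topology

theorem kap_local (s : Lt) {x y : ℤ → Bool} (h : ∀ j : ℤ, -1 ≤ j → j ≤ 3 → x j = y j) :
    kap s x = kap s y := by
  have h0 := h (-1) (by norm_num) (by norm_num)
  have h1 := h 0 (by norm_num) (by norm_num)
  have h2 := h 1 (by norm_num) (by norm_num)
  have h3 := h 2 (by norm_num) (by norm_num)
  have h4 := h 3 (by norm_num) (by norm_num)
  have e1 : labZ x 1 = labZ y 1 := by
    unfold labZ
    norm_num
    rw [h1, h2]
  have e3 : labZ x 3 = labZ y 3 := by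
    unfold labZ
    norm_num
    rw [h3, h4]
  have e0 : labZ x 0 = labZ y 0 := by
    unfold labZ
    norm_num
    rw [h0, h1]
  have ee : evZ x 1 = evZ y 1 := by
    unfold evZ
    norm_num
    rw [e1, e3]
  cases s with
  | none => simp only [kap, ee]
  | some e => simp only [kap, ee, e0, e1]

private theorem B5_kap_abs (s : Lt) (x : ℤ → Bool) : |kap s x| ≤ 1 := by
  cases s with
  | none =>
    simp only [kap]
    split_ifs <;> norm_num
  | some e =>
    simp only [kap]
    split_ifs <;> norm_num

theorem disp_abs (w : List Lt) (x : ℤ → Bool) : |disp w x| ≤ w.length := by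
  induction w with
  | nil => simp [disp]
  | cons s w ih =>
    have h1 := B5_kap_abs s (fun n => x (n + disp w x))
    have h2 : disp (s :: w) x = disp w x + kap s (fun n => x (n + disp w x)) := rfl
    rw [h2, List.length_cons]
    refine (abs_add_le _ _).trans ?_
    push_cast
    linarith

theorem disp_local (w : List Lt) {x y : ℤ → Bool}
    (h : ∀ j : ℤ, |j| ≤ (w.length : ℤ) + 3 → x j = y j) : disp w x = disp w y := by
  induction w with
  | nil => rfl
  | cons s w ih =>
    rw [List.length_cons] at h
    push_cast at h
    have h1 := ih (fun j hj => h j (by linarith))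
    have h2 : disp (s :: w) x = disp w x + kap s (fun n => x (n + disp w x)) := rfl
    have h3 : disp (s :: w) y = disp w y + kap s (fun n => y (n + disp w y)) := rfl
    rw [h2, h3, ← h1]
    congr 1
    refine kap_local s (fun j hj1 hj2 => h _ ?_)
    have h4 := disp_abs w x
    rw [abs_le] at h4 ⊢
    constructor <;> linarith [h4.1, h4.2]

theorem disp_eq (w : List Lt) {x : ℤ → Bool} {i : ℕ} (hi : w.length + 4 ≤ i)
    (h : ∀ j : ℤ, |j| ≤ (w.length : ℤ) + 3 → x j = tm (i + j).toNat) :
    (act w i : ℤ) = i + disp w x := by
  induction w with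
  | nil => simp [act, disp]
  | cons s w ih =>
    rw [List.length_cons] at h hi
    push_cast at h
    have h1 := ih (by omega) (fun j hj => h j (by linarith))
    have h4 := disp_abs w x
    rw [abs_le] at h4
    have h2 : disp (s :: w) x = disp w x + kap s (fun n => x (n + disp w x)) := rfl
    have h3 : act (s :: w) i = act1 s (act w i) := rfl
    have h5 : 1 ≤ act w i := by
      have : (1 : ℤ) ≤ act w i := by
        rw [h1]
        have : ((w.length + 1 + 4 : ℕ) : ℤ) ≤ i := by exact_mod_cast hi
        push_cast at this
        linarith [h4.1]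
      exact_mod_cast this
    rw [h3, act1_kap s _ h5, h2, ← add_assoc, ← h1]
    congr 1
    refine kap_local s (fun j hj1 hj2 => ?_)
    have h6 := h (j + disp w x) (by
      rw [abs_le]
      constructor <;> linarith [h4.1, h4.2])
    show tm ((act w i : ℤ) + j).toNat = x (j + disp w x)
    rw [h6, h1]
    congr 2
    ring

end H260R4
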