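import Mathlib
import Pool.Agent.H260R4.Defs
import Pool.Agent.H260R4.A2
import Pool.Agent.H260R4.B2
import Pool.Agent.H260R4.B5

namespace H260R4

open Filter Topology

theorem morseT_zpow (m : ℤ) (x : morseShift) :
    ((morseT ^ m) x).1 = fun n => x.1 (n + m) := by
  induction m using Int.induction_on generalizing x with
  | zero =>
    rw [zpow_zero]
    funext n
    rw [add_zero]
    rfl
  | succ i ih =>
    rw [zpow_add_one]
    have h1 : ((morseT ^ (i : ℤ) * morseT) x) = (morseT ^ (i : ℤ)) (morseT x) := rfl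
    rw [h1, ih]
    funext n
    show x.1 (n + i + 1) = x.1 (n + (i + 1))
    rw [add_assoc]
  | pred i ih =>
    rw [zpow_sub_one]
    have h1 : ((morseT ^ (-(i : ℤ)) * morseT⁻¹) x) = (morseT ^ (-(i : ℤ))) (morseT⁻¹ x) := rfl
    rw [h1, ih]
    funext n
    show x.1 (n + -i + (-1)) = x.1 (n + (-i - 1))
    have h2 : n + -(i : ℤ) + (-1) = n + (-i - 1) := by ring
    rw [h2]

theorem B6_disp (s : Lt) (x : ℤ → Bool) :
    disp [s, s] x = kap s x + kap s (fun n => x (n + kap s x)) := by
  simp [disp]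

theorem B6_zero (s : Lt) {x : ℤ → Bool} (hx : x ∈ morseShift) :
    kap s x + kap s (fun n => x (n + kap s x)) = 0 := by
  obtain ⟨i, hi, hw⟩ := window hx 5
  have h1 := disp_eq [s, s] (x := x) (i := i) (by simpa using hi) (by
    intro j hj
    apply hw
    simpa using hj)
  have h2 : act [s, s] i = i := act1_invol s i
  rw [h2, B6_disp] at h1
  linarith

theorem B6_kap_cont (s : Lt) : Continuous fun x : morseShift => kap s x.1 := by
  let r : morseShift → (Fin 5 → Bool) := fun x j => x.1 (((j : ℕ) : ℤ) - 1)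
  let e : (Fin 5 → Bool) → (ℤ → Bool) := fun v n => v ⟨(n + 1).toNat % 5, Nat.mod_lt _ (by norm_num)⟩
  have hr : Continuous r :=
    continuous_pi fun j => (continuous_apply (((j : ℕ) : ℤ) - 1)).comp continuous_subtype_val
  have h1 : (fun x : morseShift => kap s x.1) = (fun v => kap s (e v)) ∘ r := by
    funext x
    show kap s x.1 = kap s (e (r x))
    apply kap_local
    intro j hj1 hj2
    show x.1 j = x.1 (((((j + 1).toNat % 5 : ℕ)) : ℤ) - 1)
    have h2 : (((((j + 1).toNat % 5 : ℕ)) : ℤ) - 1) = j := by omega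
    rw [h2]
  rw [h1]
  exact continuous_of_discreteTopology.comp hr

theorem B6_cont (s : Lt) : Continuous fun x : morseShift => (morseT ^ (kap s x.1)) x := by
  rw [continuous_iff_continuousAt]
  intro x
  have h1 : ∀ᶠ y in 𝓝 x, kap s y.1 = kap s x.1 :=
    (B6_kap_cont s).continuousAt.eventually (isOpen_discrete {kap s x.1} |>.mem_nhds rfl)
  have h2 : ContinuousAt (fun y : morseShift => (morseT ^ (kap s x.1)) y) x :=
    (morseT ^ (kap s x.1)).continuous.continuousAt
  refine h2.congr ?_
  filter_upwards [h1] with y hy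
  rw [hy]

theorem B6_invol (s : Lt) (x : morseShift) :
    (fun x : morseShift => (morseT ^ (kap s x.1)) x)
      ((fun x : morseShift => (morseT ^ (kap s x.1)) x) x) = x := by
  apply Subtype.ext
  show ((morseT ^ (kap s ((morseT ^ (kap s x.1)) x).1)) ((morseT ^ (kap s x.1)) x)).1 = x.1
  rw [morseT_zpow, morseT_zpow]
  funext n
  have h := B6_zero s x.2
  have h2 : n + kap s (fun n => x.1 (n + kap s x.1)) + kap s x.1 = n := by linarith
  show x.1 (n + kap s (fun n => x.1 (n + kap s x.1)) + kap s x.1) = x.1 n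
  rw [h2]

theorem exists_homeo : ∃ g : Lt → (morseShift ≃ₜ morseShift),
    (∀ s x, g s x = (morseT ^ (kap s x.1)) x) ∧ ∀ s, g s * g s = 1 := by
  refine ⟨fun s => ⟨⟨fun x => (morseT ^ (kap s x.1)) x, fun x => (morseT ^ (kap s x.1)) x,
    B6_invol s, B6_invol s⟩, B6_cont s, B6_cont s⟩, fun s x => rfl, fun s => ?_⟩
  apply Homeomorph.ext
  intro x
  exact B6_invol s x

end H260R4
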