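import Mathlib
import Pool.Agent.H260R4.Defs
import Pool.Agent.H260R4.B5
import Pool.Agent.H260R4.B6

namespace H260R4

open Filter Topology

theorem prod_apply {g : Lt → (morseShift ≃ₜ morseShift)}
    (hg : ∀ s x, g s x = (morseT ^ (kap s x.1)) x) (w : List Lt) (x : morseShift) :
    (w.map g).prod x = (morseT ^ (disp w x.1)) x := by
  induction w with
  | nil =>
    show ((1 : morseShift ≃ₜ morseShift)) x = (morseT ^ (0 : ℤ)) x
    rw [zpow_zero]
  | cons s w ih =>
    rw [List.map_cons, List.prod_cons]
    show g s ((w.map g).prod x) = _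
    rw [ih, hg]
    have h1 : ((morseT ^ (disp w x.1)) x).1 = fun n => x.1 (n + disp w x.1) :=
      morseT_zpow _ _
    rw [h1]
    show (morseT ^ (kap s fun n => x.1 (n + disp w x.1)) * morseT ^ (disp w x.1)) x = _
    rw [← zpow_add, add_comm]
    rfl

theorem prod_mem_fullGroup {g : Lt → (morseShift ≃ₜ morseShift)}
    (hg : ∀ s x, g s x = (morseT ^ (kap s x.1)) x) (w : List Lt) :
    (w.map g).prod ∈ fullGroup morseT := by
  refine ⟨fun x => disp w x.1, ?_, fun x => prod_apply hg w x⟩
  refine continuous_iff_continuousAt.2 fun x => ?_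
  have h1 : ∀ᶠ y : morseShift in 𝓝 x,
      ∀ j ∈ Finset.Icc (-((w.length : ℤ) + 3)) ((w.length : ℤ) + 3), y.1 j = x.1 j := by
    rw [Filter.eventually_all_finset]
    intro j _
    have h2 : Continuous fun y : morseShift => y.1 j :=
      (continuous_apply j).comp continuous_subtype_val
    exact h2.continuousAt.eventually_mem
      ((isOpen_discrete ({x.1 j} : Set Bool)).mem_nhds (Set.mem_singleton _))
  have h3 : ∀ᶠ y : morseShift in 𝓝 x, disp w x.1 = disp w y.1 := by
    refine h1.mono fun y hy => ?_
    refine disp_local w fun j hj => ?_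
    rw [abs_le] at hj
    exact (hy j (Finset.mem_Icc.2 hj)).symm
  exact tendsto_const_nhds.congr' h3

end H260R4
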