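import Mathlib
import Pool.Agent.H260R4.Defs
import Pool.Agent.H260R4.A1

namespace H260R4

open Filter Topology

theorem B8_tm_aperiodic : ∀ d : ℕ, 1 ≤ d → ¬ ∀ n : ℕ, tm (n + d) = tm n := by
  intro d
  induction d using Nat.strong_induction_on with
  | _ d ih =>
    intro hd h
    rcases Nat.even_or_odd' d with ⟨e, he | he⟩
    · refine ih e (by omega) (by omega) fun n => ?_
      have h1 := h (2 * n)
      rw [he, show 2 * n + 2 * e = 2 * (n + e) by ring, tm_two_mul, tm_two_mul] at h1
      exact h1
    · have h1 : lab 2 = true := by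
        have h2 := lab_two_mul 1 le_rfl
        have h3 := lab_odd 1 rfl
        rw [h3] at h2
        simpa using h2
      have h4 : lab (2 + d) = false := lab_odd (2 + d) (by omega)
      have h5 : lab (2 + d) = lab 2 := by
        unfold lab
        have e1 : 2 + d - 1 = 1 + d := by omega
        rw [e1, h 2, h 1]
      rw [h5, h1] at h4
      exact Bool.noConfusion h4

theorem B8_zz_lt {m m' : ℤ} (hlt : m < m')
    (h : (fun j : ℤ => zz (j + m)) = fun j : ℤ => zz (j + m')) : False := by
  refine B8_tm_aperiodic (m' - m).toNat (by omega) fun n => ?_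
  have h1 : zz ((n : ℤ) - m + m) = zz ((n : ℤ) - m + m') := congrFun h ((n : ℤ) - m)
  have e1 : (n : ℤ) - m + m = n := by ring
  have e2 : (n : ℤ) - m + m' = ((n + (m' - m).toNat : ℕ) : ℤ) := by
    push_cast
    omega
  rw [e1, e2] at h1
  simp only [zz, Int.natCast_nonneg, if_true, Int.toNat_natCast] at h1
  exact h1.symm

theorem zz_aperiodic {m m' : ℤ} (h : (fun j : ℤ => zz (j + m)) = fun j : ℤ => zz (j + m')) :
    m = m' := by
  rcases lt_trichotomy m m' with hlt | heq | hgt
  · exact (B8_zz_lt hlt h).elim
  · exact heq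
  · exact (B8_zz_lt hgt h.symm).elim

end H260R4
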