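import Mathlib
import Pool.Agent.H260R4.Defs
import Pool.Agent.H260R4.A2

namespace H260R4

open Filter Topology

namespace B9aux

/-- the first `M` coordinates of `n` and `i` are the same -/
def SameP : ℕ → ℕ → ℕ → Prop
  | 0, _, _ => True
  | M + 1, n, i => ∃ e m m', n = unp e m ∧ i = unp e m' ∧ SameP M m m'

theorem same_act (M : ℕ) : ∀ (n i : ℕ) (w : List Lt), SameP M n i →
    SameP M (act w n) (act w i) := by
  induction M with
  | zero => intro n i w _; trivial
  | succ M ih =>
    rintro n i w ⟨e, m, m', rfl, rfl, h⟩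
    exact ⟨_, _, _, act_sec w e m, act_sec w e m', ih _ _ _ h⟩

theorem same_symm (M : ℕ) : ∀ n i : ℕ, SameP M n i → SameP M i n := by
  induction M with
  | zero => intro n i _; trivial
  | succ M ih =>
    rintro n i ⟨e, m, m', rfl, rfl, h⟩
    exact ⟨_, _, _, rfl, rfl, ih _ _ h⟩

theorem same_trans (M : ℕ) : ∀ n i j : ℕ, SameP M n i → SameP M i j → SameP M n j := by
  induction M with
  | zero => intro n i j _ _; trivial
  | succ M ih =>
    rintro n i j ⟨e, m, m', rfl, rfl, h⟩ ⟨e', m₁, m₁', h1, rfl, h2⟩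
    obtain ⟨h3, h4⟩ := unp_inj h1
    subst h3
    subst h4
    exact ⟨_, _, _, rfl, rfl, ih _ _ _ h h2⟩

theorem unp_div (e : Bool) (m : ℕ) : unp e m / 2 = m := by
  unfold unp
  split_ifs <;> omega

theorem same_eq (M : ℕ) : ∀ n i : ℕ, n < 2 ^ M → i < 2 ^ M → SameP M n i → n = i := by
  induction M with
  | zero => intro n i hn hi _; simp at hn hi; omega
  | succ M ih =>
    rintro n i hn hi ⟨e, m, m', rfl, rfl, h⟩
    have h1 := unp_div e m
    have h2 := unp_div e m'
    rw [pow_succ] at hn hi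
    have h3 : m = m' := ih m m' (by omega) (by omega) h
    rw [h3]

theorem same_add (M : ℕ) : ∀ n c : ℕ, SameP M n (n + 2 ^ (M + 1) * c) := by
  induction M with
  | zero => intro n c; trivial
  | succ M ih =>
    intro n c
    obtain ⟨e, m, rfl⟩ := unp_surj n
    refine ⟨e, m, m + 2 ^ (M + 1) * c, rfl, ?_, ih m c⟩
    have h1 : (m + 2 ^ (M + 1) * c) % 2 = m % 2 := by
      rw [pow_succ, mul_comm (2 ^ M) 2, mul_assoc, Nat.add_mul_mod_self_left]
    unfold unp
    rw [h1]
    ring

end B9aux

open B9aux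

theorem act_ne_far {w w' : List Lt} (h : act w ≠ act w') (K : ℕ) :
    ∃ i ≥ K, act w i ≠ act w' i := by
  obtain ⟨n, hn⟩ := Function.ne_iff.1 h
  set M := act w n + act w' n with hM
  have h1 : act w n < 2 ^ M := by
    have := Nat.lt_two_pow_self (n := M)
    omega
  have h2 : act w' n < 2 ^ M := by
    have := Nat.lt_two_pow_self (n := M)
    omega
  have hpos : 0 < 2 ^ (M + 1) := by positivity
  refine ⟨n + 2 ^ (M + 1) * K, ?_, ?_⟩
  · have : K ≤ 2 ^ (M + 1) * K := Nat.le_mul_of_pos_left K hpos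
    omega
  · intro he
    apply hn
    have h3 := same_act M n _ w (same_add M n K)
    have h4 := same_act M n _ w' (same_add M n K)
    rw [← he] at h4
    exact same_eq M _ _ h1 h2 (same_trans M _ _ _ h3 (same_symm M _ _ h4))

end H260R4
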