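import Mathlib
import Pool.Agent.H260R4.Defs
import Pool.Agent.H260R4.B2
import Pool.Agent.H260R4.B3
import Pool.Agent.H260R4.B7
import Pool.Agent.H260R4.B8
import Pool.Agent.H260R4.B9

namespace H260R4

open Filter Topology

theorem prod_eq_iff {g : Lt → (morseShift ≃ₜ morseShift)}
    (hg : ∀ s x, g s x = (morseT ^ (kap s x.1)) x) (w w' : List Lt) :
    (w.map g).prod = (w'.map g).prod ↔ act w = act w' := by
  constructor
  · intro h
    by_contra hne
    obtain ⟨i, hi, hne2⟩ := act_ne_far hne (max w.length w'.length + 4)
    have hw : w.length + 4 ≤ i := le_trans (by have := le_max_left w.length w'.length; omega) hi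
    have hw' : w'.length + 4 ≤ i := le_trans (by have := le_max_right w.length w'.length; omega) hi
    have hz : ∀ j : ℤ, -(i : ℤ) ≤ j → zz (j + i) = tm ((i : ℤ) + j).toNat := by
      intro j hj
      unfold zz
      rw [if_pos (by omega)]
      congr 2
      ring
    have e1 := disp_eq w (x := fun j : ℤ => zz (j + i)) hw (fun j hj => hz j (by
      have := abs_le.1 hj; omega))
    have e2 := disp_eq w' (x := fun j : ℤ => zz (j + i)) hw' (fun j hj => hz j (by
      have := abs_le.1 hj; omega))
    set x : morseShift := ⟨fun j : ℤ => zz (j + i), zz_mem i⟩ with hx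
    have h1 : (w.map g).prod x = (w'.map g).prod x := by rw [h]
    rw [prod_apply hg, prod_apply hg] at h1
    have h2 := congrArg Subtype.val h1
    rw [morseT_zpow, morseT_zpow] at h2
    have h3 : (fun j : ℤ => zz (j + (disp w x.1 + i))) =
        fun j : ℤ => zz (j + (disp w' x.1 + i)) := by
      funext j
      have := congrFun h2 j
      simp only [hx] at this
      rw [← add_assoc, ← add_assoc]
      exact this
    have h4 := zz_aperiodic h3
    apply hne2
    have h5 : disp w (fun j : ℤ => zz (j + i)) = disp w' (fun j : ℤ => zz (j + i)) := by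
      have : disp w x.1 = disp w' x.1 := by omega
      exact this
    have : (act w i : ℤ) = act w' i := by rw [e1, e2, h5]
    exact_mod_cast this
  · intro h
    ext1 x
    rw [prod_apply hg, prod_apply hg]
    obtain ⟨i, hi, hj⟩ := window x.2 (max w.length w'.length + 3)
    have m1 := le_max_left w.length w'.length
    have m2 := le_max_right w.length w'.length
    have e1 := disp_eq w (x := x.1) (i := i) (by omega) (fun j hj' => hj j (by
      push_cast
      have : (w.length : ℤ) ≤ max (w.length : ℤ) (w'.length : ℤ) := le_max_left _ _
      linarith))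
    have e2 := disp_eq w' (x := x.1) (i := i) (by omega) (fun j hj' => hj j (by
      push_cast
      have : (w'.length : ℤ) ≤ max (w.length : ℤ) (w'.length : ℤ) := le_max_right _ _
      linarith))
    have h5 : disp w x.1 = disp w' x.1 := by
      rw [h] at e1
      omega
    rw [h5]

end H260R4
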