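import Mathlib
import Pool.Agent.H260R4.Defs

namespace H260R4

open Filter Topology

/-- growth of a group generated by three involutions, described by words -/
theorem growth_eq {G : Type*} [Group G] (g : Lt → G) (hinv : ∀ s, g s * g s = 1)
    (heq : ∀ w w' : List Lt, (w.map g).prod = (w'.map g).prod ↔ act w = act w')
    (hgen : Subgroup.closure (Set.range g) = ⊤) :
    ∃ S : Finset G, Subgroup.closure (S : Set G) = ⊤ ∧ ∀ r, growth S r = (BL r).ncard := by
  classical
  have hSr : ((Finset.univ.image g : Finset G) : Set G) = Set.range g := by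
    rw [Finset.coe_image, Finset.coe_univ, Set.image_univ]
  refine ⟨Finset.univ.image g, by rw [hSr]; exact hgen, fun r => ?_⟩
  have hset : {h : G | ∃ l : List G, l.length ≤ r ∧
      (∀ s ∈ l, s ∈ Finset.univ.image g ∨ s⁻¹ ∈ Finset.univ.image g) ∧ l.prod = h} =
      {h : G | ∃ w : List Lt, w.length ≤ r ∧ (w.map g).prod = h} := by
    ext h
    constructor
    · rintro ⟨l, hl, hs, hp⟩
      have hr : ∀ s ∈ l, s ∈ Set.range g := by
        intro s hsl
        rcases hs s hsl with h1 | h1
        · obtain ⟨t, _, ht⟩ := Finset.mem_image.1 h1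
          exact ⟨t, ht⟩
        · obtain ⟨t, _, ht⟩ := Finset.mem_image.1 h1
          refine ⟨t, ?_⟩
          have h2 := hinv t
          rw [ht] at h2
          rw [ht]
          have h3 : s⁻¹ = (s⁻¹)⁻¹ := eq_inv_of_mul_eq_one_left h2
          rw [inv_inv] at h3
          exact h3
      have hl2 : l ∈ Set.range (List.map g) := by
        rw [Set.range_list_map]
        exact hr
      obtain ⟨w, hw⟩ := hl2
      refine ⟨w, ?_, ?_⟩
      · rw [← hw, List.length_map] at hl
        exact hl
      · rw [hw]; exact hp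
    · rintro ⟨w, hw, hp⟩
      refine ⟨w.map g, by rw [List.length_map]; exact hw, ?_, hp⟩
      intro s hs
      obtain ⟨t, _, ht⟩ := List.mem_map.1 hs
      exact Or.inl (Finset.mem_image.2 ⟨t, Finset.mem_univ _, ht⟩)
  change Nat.card ({h : G | ∃ l : List G, l.length ≤ r ∧
      (∀ s ∈ l, s ∈ Finset.univ.image g ∨ s⁻¹ ∈ Finset.univ.image g) ∧ l.prod = h} : Set G) = _
  rw [hset, Nat.card_coe_set_eq]
  refine Set.ncard_congr (fun _ ha => act ha.choose) ?_ ?_ ?_
  · intro a ha
    exact ⟨ha.choose, ha.choose_spec.1, rfl⟩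
  · intro a b ha hb hab
    have h1 := (heq ha.choose hb.choose).2 hab
    rw [ha.choose_spec.2, hb.choose_spec.2] at h1
    exact h1
  · rintro b ⟨w, hw, rfl⟩
    have hm : (w.map g).prod ∈ {h : G | ∃ w : List Lt, w.length ≤ r ∧ (w.map g).prod = h} :=
      ⟨w, hw, rfl⟩
    refine ⟨(w.map g).prod, hm, ?_⟩
    exact (heq _ _).1 hm.choose_spec.2

end H260R4
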