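import Mathlib
import Pool.Agent.H260R4.Defs

namespace H260R4

open Filter Topology

/-- the ball -/
def C2B {G : Type*} [Group G] (S : Finset G) (r : ℕ) : Set G :=
  {g | ∃ l : List G, l.length ≤ r ∧ (∀ s ∈ l, s ∈ S ∨ s⁻¹ ∈ S) ∧ l.prod = g}

theorem C2_growth {G : Type*} [Group G] (S : Finset G) (r : ℕ) :
    growth S r = (C2B S r).ncard := rfl

theorem C2_mono {G : Type*} [Group G] (S : Finset G) {r r' : ℕ} (h : r ≤ r') :
    C2B S r ⊆ C2B S r' := by
  rintro g ⟨l, h1, h2, h3⟩
  exact ⟨l, h1.trans h, h2, h3⟩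

theorem C2_mul {G : Type*} [Group G] (S : Finset G) {a b : ℕ} {g h : G} (hg : g ∈ C2B S a)
    (hh : h ∈ C2B S b) : g * h ∈ C2B S (a + b) := by
  obtain ⟨l, h1, h2, h3⟩ := hg
  obtain ⟨l', h1', h2', h3'⟩ := hh
  refine ⟨l ++ l', ?_, ?_, ?_⟩
  · rw [List.length_append]
    omega
  · intro s hs
    rcases List.mem_append.1 hs with h | h
    · exact h2 s h
    · exact h2' s h
  · rw [List.prod_append, h3, h3']

theorem C2_finite {G : Type*} [Group G] (S : Finset G) (r : ℕ) : (C2B S r).Finite := by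
  classical
  have hgen : ({s : G | s ∈ S ∨ s⁻¹ ∈ S}).Finite := by
    refine (S ∪ S.image (fun s => s⁻¹)).finite_toSet.subset ?_
    intro s hs
    rw [Finset.mem_coe, Finset.mem_union, Finset.mem_image]
    rcases hs with h | h
    · exact Or.inl h
    · exact Or.inr ⟨s⁻¹, h, inv_inv s⟩
  induction r with
  | zero =>
    refine (Set.finite_singleton (1 : G)).subset ?_
    rintro g ⟨l, h1, _, h3⟩
    have : l = [] := List.length_eq_zero_iff.1 (by omega)
    rw [this, List.prod_nil] at h3
    exact h3.symm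
  | succ r ih =>
    refine ((Set.finite_singleton (1 : G)).union (hgen.image2 (fun a b => a * b) ih)).subset ?_
    rintro g ⟨l, h1, h2, h3⟩
    cases l with
    | nil =>
      left
      rw [List.prod_nil] at h3
      exact h3.symm
    | cons s l =>
      right
      rw [List.length_cons] at h1
      refine ⟨s, h2 s List.mem_cons_self, l.prod, ⟨l, by omega, ?_, rfl⟩, ?_⟩
      · exact fun t ht => h2 t (List.mem_cons_of_mem _ ht)
      · rw [← h3, List.prod_cons]

theorem C2_incl {G : Type*} [Group G] (S S' : Finset G)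
    (hS' : Subgroup.closure (S' : Set G) = ⊤) :
    ∃ k : ℕ, 1 ≤ k ∧ ∀ r, C2B S r ⊆ C2B S' (k * r) := by
  classical
  have h1 : ∀ g : G, ∃ k : ℕ, g ∈ C2B S' k := by
    intro g
    have hg : g ∈ Subgroup.closure (S' : Set G) := by
      rw [hS']
      exact Subgroup.mem_top g
    have hg' : g ∈ Submonoid.closure ((S' : Set G) ∪ (S' : Set G)⁻¹) := by
      rw [← Subgroup.closure_toSubmonoid]
      exact hg
    obtain ⟨l, hl1, hl2⟩ := Submonoid.exists_list_of_mem_closure hg'
    exact ⟨l.length, l, le_rfl, fun s hs => by simpa using hl1 s hs, hl2⟩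
  choose f hf using h1
  refine ⟨(S ∪ S.image (fun s => s⁻¹)).sup f + 1, Nat.le_add_left _ _, ?_⟩
  intro r
  have h2 : ∀ s : G, (s ∈ S ∨ s⁻¹ ∈ S) → s ∈ C2B S' ((S ∪ S.image (fun s => s⁻¹)).sup f + 1) := by
    intro s hs
    refine C2_mono S' ?_ (hf s)
    have h3 : s ∈ S ∪ S.image (fun s => s⁻¹) := by
      rw [Finset.mem_union, Finset.mem_image]
      rcases hs with h | h
      · exact Or.inl h
      · exact Or.inr ⟨s⁻¹, h, inv_inv s⟩
    have := Finset.le_sup (f := f) h3
    omega
  obtain ⟨k, hk⟩ : ∃ k, k = (S ∪ S.image (fun s => s⁻¹)).sup f + 1 := ⟨_, rfl⟩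
  rw [← hk] at h2 ⊢
  have h4 : ∀ l : List G, (∀ s ∈ l, s ∈ S ∨ s⁻¹ ∈ S) → l.prod ∈ C2B S' (k * l.length) := by
    intro l
    induction l with
    | nil =>
      intro _
      exact ⟨[], by simp, by simp, by simp⟩
    | cons s l ih =>
      intro hl
      have h5 := C2_mul S' (h2 s (hl s List.mem_cons_self))
        (ih fun t ht => hl t (List.mem_cons_of_mem _ ht))
      rw [List.prod_cons, List.length_cons]
      refine C2_mono S' ?_ h5
      rw [mul_add, mul_one]
      omega
  rintro g ⟨l, h6, h7, h8⟩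
  rw [← h8]
  exact C2_mono S' (Nat.mul_le_mul_left k h6) (h4 l h7)

/-- it is enough to look at one generating set -/
theorem intermediate_of_one {G : Type*} [Group G] (S : Finset G)
    (hS : Subgroup.closure (S : Set G) = ⊤)
    (h1 : ∀ d : ℕ, Tendsto (fun r : ℕ => (growth S r : ℝ) / (r : ℝ) ^ d) atTop atTop)
    (h2 : ∀ c : ℝ, 0 < c →
      Tendsto (fun r : ℕ => (growth S r : ℝ) / Real.exp (c * r)) atTop (𝓝 0)) :
    IntermediateGrowth G := by
  refine ⟨Group.fg_iff.2 ⟨(S : Set G), hS, S.finite_toSet⟩, fun S' hS' => ⟨fun d => ?_, fun c hc => ?_⟩⟩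
  · obtain ⟨k, hk1, hk⟩ := C2_incl S S' hS'
    have hdiv : Tendsto (fun r : ℕ => r / k) atTop atTop :=
      Nat.tendsto_div_const_atTop (by omega)
    have h3 := (h1 d).comp hdiv
    have h4 : Tendsto (fun r : ℕ => ((growth S (r / k) : ℝ) / ((r / k : ℕ) : ℝ) ^ d) *
        (1 / (2 * (k : ℝ)) ^ d)) atTop atTop := by
      refine Tendsto.atTop_mul_const ?_ h3
      have : (0 : ℝ) < k := by exact_mod_cast hk1
      positivity
    refine tendsto_atTop_mono' _ ?_ h4
    filter_upwards [eventually_ge_atTop k] with r hr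
    have hm : 1 ≤ r / k := (Nat.one_le_div_iff (by omega)).2 hr
    have hm' : (1 : ℝ) ≤ ((r / k : ℕ) : ℝ) := by exact_mod_cast hm
    have hk0 : (1 : ℝ) ≤ k := by exact_mod_cast hk1
    have hr0 : (0 : ℝ) < r := by
      have : 0 < r := by omega
      exact_mod_cast this
    have h5 : (growth S (r / k) : ℝ) ≤ growth S' r := by
      have h6 : growth S (r / k) ≤ growth S' r := by
        rw [C2_growth, C2_growth]
        refine Set.ncard_le_ncard ((hk (r / k)).trans (C2_mono S' ?_)) (C2_finite S' r)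
        exact Nat.mul_div_le r k
      exact_mod_cast h6
    have h7 : (r : ℝ) ≤ 2 * k * ((r / k : ℕ) : ℝ) := by
      have h8 : r < k * (r / k + 1) := by
        have := Nat.lt_mul_div_succ r (show 0 < k by omega)
        exact this
      have h9 : (r : ℝ) < k * (((r / k : ℕ) : ℝ) + 1) := by exact_mod_cast h8
      nlinarith
    have h10 : (r : ℝ) ^ d ≤ (2 * k) ^ d * ((r / k : ℕ) : ℝ) ^ d := by
      rw [← mul_pow]
      exact pow_le_pow_left₀ hr0.le h7 d
    rw [div_mul_div_comm, mul_one]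
    refine div_le_div₀ (Nat.cast_nonneg _) h5 (by positivity) ?_
    rw [mul_comm]
    exact h10
  · obtain ⟨k, hk1, hk⟩ := C2_incl S' S hS
    have hk0 : (0 : ℝ) < k := by exact_mod_cast hk1
    have hmul : Tendsto (fun r : ℕ => k * r) atTop atTop :=
      tendsto_id.const_mul_atTop' (by omega)
    have h3 := (h2 (c / k) (by positivity)).comp hmul
    refine squeeze_zero (fun r => by positivity) (fun r => ?_) h3
    show (growth S' r : ℝ) / Real.exp (c * r) ≤
      (growth S (k * r) : ℝ) / Real.exp (c / k * ((k * r : ℕ) : ℝ))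
    have h4 : c / k * ((k * r : ℕ) : ℝ) = c * r := by
      push_cast
      field_simp
    rw [h4]
    refine div_le_div_of_nonneg_right ?_ (Real.exp_pos _).le
    have h5 : growth S' r ≤ growth S (k * r) := by
      rw [C2_growth, C2_growth]
      exact Set.ncard_le_ncard (hk r) (C2_finite S _)
    exact_mod_cast h5

end H260R4
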