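import Mathlib
import Pool.Agent.H260R4.Defs
import Pool.Agent.H260R4.A5
import Pool.Agent.H260R4.A6
import Pool.Agent.H260R4.A7
import Pool.Agent.H260R4.A8
import Pool.Agent.H260R4.A11
import Pool.Agent.H260R4.A12
import Pool.Agent.H260R4.A13
import Pool.Agent.H260R4.B6
import Pool.Agent.H260R4.B7
import Pool.Agent.H260R4.B10
import Pool.Agent.H260R4.C1
import Pool.Agent.H260R4.C2

namespace H260R4

open Filter Topology

theorem BL_superpoly (d : ℕ) :
    Tendsto (fun r : ℕ => ((BL r).ncard : ℝ) / (r : ℝ) ^ d) atTop atTop := by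
  obtain ⟨M, hM, hrec⟩ := BL_rec
  exact superpoly_of_rec (fun r => (BL r).ncard) M hM
    (fun m n h => Set.ncard_le_ncard (BL_mono h) (BL_finite n)) hrec BL_unbounded d

theorem BL_subexp (c : ℝ) (hc : 0 < c) :
    Tendsto (fun r : ℕ => ((BL r).ncard : ℝ) / Real.exp (c * r)) atTop (𝓝 0) := by
  obtain ⟨C, hC, hN⟩ := subexp_of_rec (fun n => (BW n).ncard) (fun n K => (CS n K).ncard)
    BW_card (fun n K x hx hx1 => CS_card n K x hx hx1) BW_rec (Real.exp (c / 6))
    (Real.one_lt_exp_iff.2 (by positivity))
  have h1 : Tendsto (fun r : ℕ => C * Real.exp (-(c / 2) * r)) atTop (𝓝 0) := by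
    have h2 : Tendsto (fun r : ℕ => Real.exp (-(c / 2) * r)) atTop (𝓝 0) := by
      apply Real.tendsto_exp_atBot.comp
      exact Tendsto.const_mul_atTop_of_neg (by linarith) tendsto_natCast_atTop_atTop
    simpa using h2.const_mul C
  refine squeeze_zero (fun r => by positivity) (fun r => ?_) h1
  have h3 : ((BL r).ncard : ℝ) ≤ C * Real.exp (c / 6) ^ (3 * r) := by
    refine le_trans ?_ (hN (3 * r))
    exact_mod_cast Set.ncard_le_ncard (BL_subset r) (BW_finite (3 * r))
  rw [div_le_iff₀ (Real.exp_pos _)]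
  refine h3.trans (le_of_eq ?_)
  rw [mul_assoc, ← Real.exp_add, ← Real.exp_nat_mul]
  congr 2
  push_cast
  ring

theorem main : ∃ H : Subgroup (morseShift ≃ₜ morseShift),
    (H : Set (morseShift ≃ₜ morseShift)) ⊆ fullGroup morseT ∧ IntermediateGrowth H := by
  obtain ⟨g, hg, hinv⟩ := exists_homeo
  let H : Subgroup (morseShift ≃ₜ morseShift) := Subgroup.closure (Set.range g)
  have hginv : ∀ s, (g s)⁻¹ = g s := fun s => inv_eq_of_mul_eq_one_left (hinv s)
  refine ⟨H, ?_, ?_⟩
  · have key : ∀ h ∈ H, ∃ w : List Lt, (w.map g).prod = h := by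
      intro h hh
      induction hh using Subgroup.closure_induction with
      | mem x hx =>
        obtain ⟨s, rfl⟩ := hx
        exact ⟨[s], by simp⟩
      | one => exact ⟨[], by simp⟩
      | mul x y _ _ hx hy =>
        obtain ⟨w, rfl⟩ := hx
        obtain ⟨w', rfl⟩ := hy
        exact ⟨w ++ w', by simp⟩
      | inv x _ hx =>
        obtain ⟨w, rfl⟩ := hx
        refine ⟨w.reverse, ?_⟩
        rw [List.prod_inv_reverse, List.map_map]
        have : (Inv.inv ∘ g) = g := by funext s; exact hginv s
        rw [this, List.map_reverse]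
    intro h hh
    obtain ⟨w, rfl⟩ := key h hh
    exact prod_mem_fullGroup hg w
  · let g' : Lt → H := fun s => ⟨g s, Subgroup.subset_closure ⟨s, rfl⟩⟩
    have hcoe : ∀ w : List Lt, (((w.map g').prod : H) : morseShift ≃ₜ morseShift)
        = (w.map g).prod := by
      intro w
      induction w with
      | nil => simp
      | cons s w ih =>
        rw [List.map_cons, List.prod_cons, List.map_cons, List.prod_cons, Subgroup.coe_mul, ih]
    obtain ⟨S, hS, hgr⟩ := growth_eq g' (fun s => Subtype.ext (hinv s)) (fun w w' => by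
      rw [← prod_eq_iff hg w w', ← hcoe w, ← hcoe w', Subtype.ext_iff]) (by
      have h1 : Set.range g' = ((↑) : H → (morseShift ≃ₜ morseShift)) ⁻¹' Set.range g := by
        ext x
        constructor
        · rintro ⟨s, rfl⟩
          exact ⟨s, rfl⟩
        · rintro ⟨s, hs⟩
          exact ⟨s, Subtype.ext hs⟩
      rw [h1]
      exact Subgroup.closure_closure_coe_preimage)
    apply intermediate_of_one S hS
    · intro d
      simp only [hgr]
      exact BL_superpoly d
    · intro c hc
      simp only [hgr]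
      exact BL_subexp c hc

end H260R4
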