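import Mathlib
import Pool.Agent.H260R4.A1
import Pool.Agent.H260R4.A2
import Pool.Agent.H260R4.A3
import Pool.Agent.H260R4.A4
import Pool.Agent.H260R4.A5
import Pool.Agent.H260R4.A6
import Pool.Agent.H260R4.A7
import Pool.Agent.H260R4.A8
import Pool.Agent.H260R4.A9
import Pool.Agent.H260R4.A10
import Pool.Agent.H260R4.A11
import Pool.Agent.H260R4.A12
import Pool.Agent.H260R4.A13
import Pool.Agent.H260R4.B1
import Pool.Agent.H260R4.B2
import Pool.Agent.H260R4.B3
import Pool.Agent.H260R4.B4
import Pool.Agent.H260R4.B5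
import Pool.Agent.H260R4.B6
import Pool.Agent.H260R4.B7
import Pool.Agent.H260R4.B8
import Pool.Agent.H260R4.B9
import Pool.Agent.H260R4.B10
import Pool.Agent.H260R4.C1
import Pool.Agent.H260R4.C2
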